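import Pool.Agent.Work.MP_f1a024_nt.TV.Stmts

/-!
# Block TV, item VCH: real characters
-/

set_option autoImplicit false

namespace Pool.Agent.Work.MP_f1a024_nt.TV

open Finset MvPolynomial Filter
open Pool.Agent.Work.MP_f1a024_nt.AH (PG val D1 D2 D4)
open Pool.Agent.Work.MP_f1a024_nt.TU

theorem VCH_fq (f : ℕ → ℚ) (s : ℕ) : fq f ∅ s = if s = 0 then 0 else f s := by
  change (if s = 0 then 0 else
    if ∀ q ∈ (∅ : Finset Nat.Primes), ¬ (q : ℕ) ∣ s then f s else 0) = _
  rw [if_pos (fun q hq => absurd hq (Finset.notMem_empty q))]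

theorem VCH_val (f : ℕ → ℚ) (n : ℕ) : ((val (fq f ∅) n : ℝ) : ℂ) =
    ∑' s : ℕ, if s = 0 then 0 else ((f s : ℚ) : ℂ) / (s : ℂ) ^ n := by
  unfold Pool.Agent.Work.MP_f1a024_nt.AH.val
  rw [Complex.ofReal_tsum]
  refine tsum_congr fun s => ?_
  rw [VCH_fq]
  by_cases h : s = 0
  · rw [if_pos h, if_pos h]
    simp
  · rw [if_neg h, if_neg h]
    push_cast
    rfl

theorem VCH_cast {D : ℕ} (χ : DirichletCharacter ℂ D) (hχ : χ ^ 2 = 1) (s : ℕ) :
    ((chq χ s : ℚ) : ℂ) = χ (s : ZMod D) := by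
  unfold chq
  by_cases h0 : χ (s : ZMod D) = 0
  · rw [if_pos h0, h0, Rat.cast_zero]
  · rw [if_neg h0]
    by_cases h1 : χ (s : ZMod D) = 1
    · rw [if_pos h1, h1, Rat.cast_one]
    · rw [if_neg h1]
      have hu : IsUnit (s : ZMod D) := by
        by_contra hu
        exact h0 (MulChar.map_nonunit χ hu)
      have h2 : χ (s : ZMod D) ^ 2 = 1 := by
        rw [← MulChar.pow_apply' χ two_ne_zero, hχ, MulChar.one_apply hu]
      rcases eq_or_eq_neg_of_sq_eq_sq _ (1 : ℂ) (h2.trans (one_pow 2).symm) with h | h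
      · exact absurd h h1
      · rw [h, Rat.cast_neg, Rat.cast_one]

theorem prfVCH : VCH := by
  refine ⟨fun D _ χ hχ => ⟨⟨?_, fun a b => ?_, fun a => ?_⟩, VCH_cast χ hχ, fun n hn => ?_⟩,
    ⟨rfl, fun _ _ => (one_mul _).symm, fun _ => Or.inr (Or.inl rfl)⟩, fun n hn => ?_⟩
  · apply Rat.cast_injective (α := ℂ)
    rw [VCH_cast χ hχ, Nat.cast_one, map_one, Rat.cast_one]
  · apply Rat.cast_injective (α := ℂ)
    rw [Rat.cast_mul, VCH_cast χ hχ, VCH_cast χ hχ, VCH_cast χ hχ, Nat.cast_mul, map_mul]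
  · unfold chq
    split_ifs
    · exact Or.inl rfl
    · exact Or.inr (Or.inl rfl)
    · exact Or.inr (Or.inr rfl)
  · have hre : 1 < ((n : ℂ)).re := by
      rw [Complex.natCast_re]
      exact_mod_cast hn
    rw [VCH_val, DirichletCharacter.LFunction_eq_LSeries χ hre]
    unfold LSeries
    refine tsum_congr fun s => ?_
    by_cases h : s = 0
    · rw [if_pos h, h, LSeries.term_zero]
    · rw [if_neg h, LSeries.term_of_ne_zero h, Complex.cpow_natCast, VCH_cast χ hχ]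
  · rw [VCH_val, zeta_nat_eq_tsum_of_gt_one (show 1 < n by omega)]
    refine tsum_congr fun s => ?_
    by_cases h : s = 0
    · rw [if_pos h, h, Nat.cast_zero, zero_pow (by omega), div_zero]
    · rw [if_neg h, Rat.cast_one]

end Pool.Agent.Work.MP_f1a024_nt.TV
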