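import Pool.Agent.Work.MP_f1a024_nt.TV.Stmts

/-!
# Block TV: the Euler factor at `q` (item VEU)
-/

namespace Pool.Agent.Work.MP_f1a024_nt.TV

open Finset MvPolynomial Filter
open Pool.Agent.Work.MP_f1a024_nt.AH (PG val D1 D2 D4)
open Pool.Agent.Work.MP_f1a024_nt.TU

theorem VEU_apply (f : ℕ → ℚ) (Q : Finset Nat.Primes) (n : ℕ) :
    fq f Q n = if n = 0 then 0 else if ∀ q ∈ Q, ¬ (q : ℕ) ∣ n then f n else 0 := rfl

theorem VEU_abs (f : ℕ → ℚ) (hf : CM f) (Q : Finset Nat.Primes) (n : ℕ) :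
    |((fq f Q n : ℚ) : ℝ)| ≤ 1 := by
  rw [VEU_apply]
  split_ifs
  · simp
  · rcases hf.2.2 n with h | h | h <;> rw [h] <;> simp
  · simp

theorem VEU_summable (f : ℕ → ℚ) (hf : CM f) (Q : Finset Nat.Primes) (n : ℕ) (hn : 2 ≤ n) :
    Summable fun s : ℕ => ((fq f Q s : ℚ) : ℝ) / (s : ℝ) ^ n := by
  refine Summable.of_norm_bounded (Real.summable_one_div_nat_pow.2 (by omega : 1 < n)) fun s => ?_
  rw [Real.norm_eq_abs, abs_div, abs_of_nonneg (pow_nonneg (Nat.cast_nonneg s) n : (0 : ℝ) ≤ _)]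
  exact div_le_div_of_nonneg_right (VEU_abs f hf Q s) (pow_nonneg (Nat.cast_nonneg s) n)

theorem VEU_mul (f : ℕ → ℚ) (hf : CM f) (Q : Finset Nat.Primes) (q : Nat.Primes) (hq : q ∉ Q)
    (t : ℕ) : fq f Q ((q : ℕ) * t) = f q * fq f Q t := by
  rw [VEU_apply, VEU_apply]
  by_cases ht : t = 0
  · rw [if_pos (by rw [ht, mul_zero]), if_pos ht, mul_zero]
  · rw [if_neg (mul_ne_zero q.2.ne_zero ht), if_neg ht]
    have h1 : (∀ r ∈ Q, ¬ (r : ℕ) ∣ (q : ℕ) * t) ↔ ∀ r ∈ Q, ¬ (r : ℕ) ∣ t := by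
      constructor
      · intro h r hr hd
        exact h r hr (hd.mul_left _)
      · intro h r hr hd
        rcases (r.2.dvd_mul).1 hd with h2 | h2
        · have h3 : (r : ℕ) = (q : ℕ) := (Nat.prime_dvd_prime_iff_eq r.2 q.2).1 h2
          exact hq (Subtype.ext h3 ▸ hr)
        · exact h r hr h2
    by_cases h : ∀ r ∈ Q, ¬ (r : ℕ) ∣ t
    · rw [if_pos (h1.2 h), if_pos h, hf.2.1]
    · rw [if_neg (fun h' => h (h1.1 h')), if_neg h, mul_zero]

theorem VEU_insert_dvd (f : ℕ → ℚ) (Q : Finset Nat.Primes) (q : Nat.Primes) (s : ℕ)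
    (h : (q : ℕ) ∣ s) : fq f (insert q Q) s = 0 := by
  rw [VEU_apply]
  split_ifs with h1 h2
  · rfl
  · exact absurd h (h2 q (Finset.mem_insert_self q Q))
  · rfl

theorem VEU_insert_not (f : ℕ → ℚ) (Q : Finset Nat.Primes) (q : Nat.Primes) (s : ℕ)
    (h : ¬ (q : ℕ) ∣ s) : fq f (insert q Q) s = fq f Q s := by
  rw [VEU_apply, VEU_apply]
  by_cases hs : s = 0
  · rw [if_pos hs, if_pos hs]
  · rw [if_neg hs, if_neg hs]
    have h1 : (∀ r ∈ insert q Q, ¬ (r : ℕ) ∣ s) ↔ ∀ r ∈ Q, ¬ (r : ℕ) ∣ s := by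
      constructor
      · exact fun h' r hr => h' r (Finset.mem_insert_of_mem hr)
      · intro h' r hr
        rcases Finset.mem_insert.1 hr with h2 | h2
        · rw [h2]
          exact h
        · exact h' r h2
    by_cases h' : ∀ r ∈ Q, ¬ (r : ℕ) ∣ s
    · rw [if_pos (h1.2 h'), if_pos h']
    · rw [if_neg (fun h2 => h' (h1.1 h2)), if_neg h']

theorem prfVEU : VEU := by
  intro f hf Q q hq n hn
  have hF := VEU_summable f hf Q n hn
  have hG := VEU_summable f hf (insert q Q) n hn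
  have key : val (fq f Q) n - val (fq f (insert q Q)) n =
      ((f q : ℚ) : ℝ) * (((q : ℕ) : ℝ) ^ n)⁻¹ * val (fq f Q) n := by
    unfold AH.val
    rw [← hF.tsum_sub hG]
    have hinj : Function.Injective fun t : ℕ => (q : ℕ) * t :=
      fun a b hab => Nat.eq_of_mul_eq_mul_left q.2.pos hab
    rw [← Function.Injective.tsum_eq hinj, ← tsum_mul_left]
    · refine tsum_congr fun t => ?_
      rw [VEU_insert_dvd f Q q _ (Nat.dvd_mul_right _ _), VEU_mul f hf Q q hq t]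
      push_cast
      rw [mul_pow, zero_div, sub_zero, mul_div_mul_comm, div_eq_mul_inv ((f q : ℚ) : ℝ)]
    · intro s hs
      by_contra h
      have h1 : ¬ (q : ℕ) ∣ s := by
        rintro ⟨t, ht⟩
        exact h ⟨t, ht.symm⟩
      apply hs
      show ((fq f Q s : ℚ) : ℝ) / (s : ℝ) ^ n - ((fq f (insert q Q) s : ℚ) : ℝ) / (s : ℝ) ^ n = 0
      rw [VEU_insert_not f Q q s h1, sub_self]
  linear_combination key

end Pool.Agent.Work.MP_f1a024_nt.TV
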