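import Pool.Agent.Work.MP_f1a024_nt.TV.Stmts

/-! Item VFI of block TV: the final theorem -/

namespace Pool.Agent.Work.MP_f1a024_nt.TV

open Finset MvPolynomial Filter
open Pool.Agent.Work.MP_f1a024_nt.AH (PG val D1 D2 D4)
open Pool.Agent.Work.MP_f1a024_nt.TU

/-- coefficients after multiplication by the square of a variable -/
lemma VFI_coeff_sq {σ : Type} [DecidableEq σ] (A : MvPolynomial σ ℤ) (v : σ) (T : ℝ)
    (h : ∀ s, |((A.coeff s : ℤ) : ℝ)| ≤ T) (s : σ →₀ ℕ) (e : ℕ) :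
    |(((A * X v ^ e).coeff s : ℤ) : ℝ)| ≤ T := by
  have hT : 0 ≤ T := le_trans (abs_nonneg _) (h 0)
  rw [X_pow_eq_monomial, coeff_mul_monomial']
  split_ifs with hs
  · rw [mul_one]
    exact h _
  · simpa using hT

/-- the zeta function is at most two at integers at least two -/
lemma VFI_zeta_le (n : ℕ) (hn : 2 ≤ n) : ‖riemannZeta (n : ℂ)‖ ≤ 2 := by
  rw [zeta_nat_eq_tsum_of_gt_one (by omega)]
  have hs2 : Summable fun s : ℕ => 1 / (s : ℝ) ^ 2 := hasSum_zeta_two.summable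
  have hle : ∀ s : ℕ, ‖(1 / (s : ℂ) ^ n)‖ ≤ 1 / (s : ℝ) ^ 2 := by
    intro s
    rw [norm_div, norm_one, norm_pow, Complex.norm_natCast]
    rcases Nat.eq_zero_or_pos s with h0 | h0
    · subst h0
      simp [show n ≠ 0 by omega]
    · have h1 : (1 : ℝ) ≤ (s : ℝ) := by exact_mod_cast h0
      apply one_div_le_one_div_of_le (by positivity)
      exact pow_le_pow_right₀ h1 hn
  have hsn : Summable fun s : ℕ => ‖(1 / (s : ℂ) ^ n)‖ :=
    Summable.of_nonneg_of_le (fun _ => norm_nonneg _) hle hs2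
  calc ‖∑' s : ℕ, 1 / (s : ℂ) ^ n‖ ≤ ∑' s : ℕ, ‖(1 / (s : ℂ) ^ n)‖ := norm_tsum_le_tsum_norm hsn
    _ ≤ ∑' s : ℕ, 1 / (s : ℝ) ^ 2 := hsn.tsum_le_tsum hle hs2
    _ = Real.pi ^ 2 / 6 := hasSum_zeta_two.tsum_eq
    _ ≤ 2 := by
      have h1 := Real.pi_lt_d2
      have h2 := Real.pi_pos
      nlinarith

/-- item VFI -/
theorem prfVFI (hVMA : VMA) (hVCH : VCH) (hVIP : VIP) : VFI := by
  intro k r d C B D _ χ h1 h2 h3
  obtain ⟨hC1, hC2, hC3⟩ := hVCH
  have hcm : ∀ i, CM (chf D χ i) := by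
    intro i
    cases i with
    | none => exact hC2
    | some i => exact (hC1 (D i) (χ i) (h1 i)).1
  have hip : IP (chf D χ) := hVIP r D χ h1 h2 h3
  obtain ⟨θ₀, hθ0, hθ1, M₀, hM⟩ :=
    hVMA (Option (Fin r)) (chf D χ) hcm hip k (d + 2) C (2 * max |B| 1)
  refine ⟨θ₀ / 4, by positivity, by linarith, max M₀ 2, ?_⟩
  intro m hm n hn hnm
  have hm0 : M₀ ≤ m := le_trans (le_max_left _ _) hm
  have hm2 : 2 ≤ m := le_trans (le_max_right _ _) hm
  have hn2 : ∀ j, 2 ≤ n j := fun j => le_trans hm2 (hnm j).1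
  have hB1 : (1 : ℝ) ≤ max |B| 1 := le_max_right _ _
  have hBm : B ^ m ≤ (max |B| 1) ^ m := by
    calc B ^ m ≤ |B ^ m| := le_abs_self _
      _ = |B| ^ m := abs_pow _ _
      _ ≤ (max |B| 1) ^ m := pow_le_pow_left₀ (abs_nonneg _) (le_max_left _ _) _
  have hB0 : (0 : ℝ) ≤ (max |B| 1) ^ m := by positivity
  have h2m : (2 : ℝ) ≤ 2 ^ m := by
    calc (2 : ℝ) = 2 ^ 1 := by norm_num
      _ ≤ 2 ^ m := pow_le_pow_right₀ (by norm_num) (by omega)
  have hB2 : 2 * (max |B| 1) ^ m ≤ (2 * max |B| 1) ^ m := by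
    rw [mul_pow]
    exact mul_le_mul_of_nonneg_right h2m hB0
  have hLv : ∀ v : Option (Fin r) × Fin k,
      Lv D χ v.1 (n v.2) = Complex.ofRealHom (val (fq (chf D χ v.1) ∅) (n v.2)) := by
    rintro ⟨i, j⟩
    cases i with
    | none => exact (hC3 (n j) (hn2 j)).symm
    | some i => exact ((hC1 (D i) (χ i) (h1 i)).2.2 (n j) (hn2 j)).symm
  have hae : ∀ P : MvPolynomial (Option (Fin r) × Fin k) ℤ,
      aeval (fun v : Option (Fin r) × Fin k => Lv D χ v.1 (n v.2)) P =
        (((aeval (fun v : Option (Fin r) × Fin k => val (fq (chf D χ v.1) ∅) (n v.2)) P : ℝ)) :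
          ℂ) := by
    intro P
    have h := MvPolynomial.comp_aeval_apply
      (fun v : Option (Fin r) × Fin k => val (fq (chf D χ v.1) ∅) (n v.2))
      (Complex.ofRealHom.toIntAlgHom) P
    have h' : (fun v : Option (Fin r) × Fin k => Lv D χ v.1 (n v.2)) =
        fun v => Complex.ofRealHom.toIntAlgHom (val (fq (chf D χ v.1) ∅) (n v.2)) := by
      funext v
      exact hLv v
    rw [h', ← h]
    rfl
  have hmain : ∀ P : MvPolynomial (Option (Fin r) × Fin k) ℤ, P ≠ 0 →
      (∀ v, P.degreeOf v ≤ d + 2) → (∀ s, |((P.coeff s : ℤ) : ℝ)| ≤ 2 * (max |B| 1) ^ m) →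
      θ₀ ^ m ≤ ‖aeval (fun v : Option (Fin r) × Fin k => Lv D χ v.1 (n v.2)) P‖ := by
    intro P hP hd hc
    rw [hae P, Complex.norm_real, Real.norm_eq_abs]
    exact hM m hm0 n hn hnm P hP hd fun s => (hc s).trans hB2
  have hθm : (θ₀ / 4) ^ m ≤ θ₀ ^ m / 4 := by
    rw [div_pow]
    apply div_le_div_of_nonneg_left (by positivity) (by norm_num)
    calc (4 : ℝ) = 4 ^ 1 := by norm_num
      _ ≤ 4 ^ m := pow_le_pow_right₀ (by norm_num) (by omega)
  have hθp : 0 < θ₀ ^ m := by positivity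
  refine ⟨?_, ?_⟩
  · intro P hP hd hc
    refine le_trans (hθm.trans (by linarith)) (hmain P hP (fun v => (hd v).trans (by omega)) ?_)
    intro s
    have := hc s
    linarith
  · intro a b A A' hab hdA hdA' hcA hcA' hne
    have hP : A * X (none, a) ^ 2 - A' * X (none, b) ≠ 0 := sub_ne_zero.mpr hne
    have hdP : ∀ v, (A * X (none, a) ^ 2 - A' * X (none, b)).degreeOf v ≤ d + 2 := by
      intro v
      have hx : ∀ u : Option (Fin r) × Fin k,
          degreeOf v (X u : MvPolynomial (Option (Fin r) × Fin k) ℤ) ≤ 1 := by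
        intro u
        rw [degreeOf_X]
        split_ifs <;> omega
      refine (degreeOf_sub_le _ _ _).trans (max_le ?_ ?_)
      · refine (degreeOf_mul_le _ _ _).trans ?_
        have hq := degreeOf_pow_le v
          (X ((none : Option (Fin r)), a) : MvPolynomial (Option (Fin r) × Fin k) ℤ) 2
        have := hx (none, a)
        have := hdA v
        omega
      · refine (degreeOf_mul_le _ _ _).trans ?_
        have := hx (none, b)
        have := hdA' v
        omega
    have hcP : ∀ s, |(((A * X (none, a) ^ 2 - A' * X (none, b)).coeff s : ℤ) : ℝ)| ≤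
        2 * (max |B| 1) ^ m := by
      intro s
      rw [coeff_sub, Int.cast_sub]
      have e1 := VFI_coeff_sq A ((none : Option (Fin r)), a) (B ^ m) hcA s 2
      have e2 := VFI_coeff_sq A' ((none : Option (Fin r)), b) (B ^ m) hcA' s 1
      rw [pow_one] at e2
      have e3 := abs_sub (((A * X ((none : Option (Fin r)), a) ^ 2).coeff s : ℤ) : ℝ)
        (((A' * X ((none : Option (Fin r)), b)).coeff s : ℤ) : ℝ)
      linarith
    have hlow := hmain _ hP hdP hcP
    have hz0 : riemannZeta (n a : ℂ) ≠ 0 := by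
      apply riemannZeta_ne_zero_of_one_lt_re
      have := hn2 a
      simp only [Complex.natCast_re]
      exact_mod_cast (by omega : 1 < n a)
    have hzb : riemannZeta (n b : ℂ) = riemannZeta (2 * (n a : ℂ)) := by
      rw [hab]
      push_cast
      rfl
    have hval : aeval (fun v : Option (Fin r) × Fin k => Lv D χ v.1 (n v.2))
        (A * X (none, a) ^ 2 - A' * X (none, b)) =
        riemannZeta (n a : ℂ) ^ 2 *
          (aeval (fun v : Option (Fin r) × Fin k => Lv D χ v.1 (n v.2)) A -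
          aeval (fun v : Option (Fin r) × Fin k => Lv D χ v.1 (n v.2)) A' *
            (riemannZeta (2 * (n a : ℂ)) / riemannZeta (n a : ℂ) ^ 2)) := by
      rw [map_sub, map_mul, map_mul, map_pow, aeval_X, aeval_X]
      change _ * riemannZeta (n a : ℂ) ^ 2 - _ * riemannZeta (n b : ℂ) = _
      rw [hzb]
      field_simp
    rw [hval, norm_mul, norm_pow] at hlow
    have hz2 := VFI_zeta_le (n a) (hn2 a)
    have hz4 : ‖riemannZeta (n a : ℂ)‖ ^ 2 ≤ 4 := by
      have := norm_nonneg (riemannZeta (n a : ℂ))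
      nlinarith
    set Y := ‖aeval (fun v : Option (Fin r) × Fin k => Lv D χ v.1 (n v.2)) A -
          aeval (fun v : Option (Fin r) × Fin k => Lv D χ v.1 (n v.2)) A' *
            (riemannZeta (2 * (n a : ℂ)) / riemannZeta (n a : ℂ) ^ 2)‖ with hY
    have hY0 : 0 ≤ Y := norm_nonneg _
    have : ‖riemannZeta (n a : ℂ)‖ ^ 2 * Y ≤ 4 * Y := mul_le_mul_of_nonneg_right hz4 hY0
    linarith

end Pool.Agent.Work.MP_f1a024_nt.TV
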