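import Pool.Agent.Work.MP_f1a024_nt.TV.Stmts

/-!
Block TV, item VHQ: the cleared Euler factors are polynomials in the `z_(q, i)`.
-/

namespace Pool.Agent.Work.MP_f1a024_nt.TV

open Finset MvPolynomial Filter
open Pool.Agent.Work.MP_f1a024_nt.AH (PG val D1 D2 D4)
open Pool.Agent.Work.MP_f1a024_nt.TU

/-- the exponent of `q ^ (-n_j)` -/
noncomputable def VHQ_s {κ : ℕ} (a : Fin κ → ℕ) : Fin κ →₀ ℕ := Finsupp.equivFunOnFinite.symm a

theorem VHQ_s_apply {κ : ℕ} (a : Fin κ → ℕ) (i : Fin κ) : VHQ_s a i = a i := rfl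

theorem VHQ_val {κ : ℕ} (q : ℕ) (hq : 0 < q) (w : Fin κ → ℕ) (a : Fin κ → ℕ) (c : ℤ) (n : ℕ)
    (h : (n : ℤ) = ∑ i, (a i : ℤ) * (w i : ℤ) + c) :
    (MvPolynomial.aeval (fun i => ((q : ℚ) ^ w i)⁻¹) (monomial (VHQ_s a) ((q : ℚ) ^ (-c))) : ℚ) =
      ((q : ℚ) ^ n)⁻¹ := by
  have hq0 : (q : ℚ) ≠ 0 := by exact_mod_cast hq.ne'
  rw [MvPolynomial.aeval_monomial, Finsupp.prod_fintype _ _ (fun i => pow_zero _)]
  have h1 : ∏ i, (((q : ℚ) ^ w i)⁻¹) ^ (VHQ_s a i) = ((q : ℚ) ^ (∑ i, a i * w i))⁻¹ := by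
    rw [← Finset.prod_pow_eq_pow_sum, ← Finset.prod_inv_distrib]
    refine Finset.prod_congr rfl fun i _ => ?_
    rw [VHQ_s_apply, inv_pow, ← pow_mul, mul_comm]
  rw [h1]
  show (q : ℚ) ^ (-c) * ((q : ℚ) ^ (∑ i, a i * w i))⁻¹ = ((q : ℚ) ^ n)⁻¹
  rw [← zpow_natCast (q : ℚ) (∑ i, a i * w i), ← zpow_natCast (q : ℚ) n, ← zpow_neg, ← zpow_neg,
    ← zpow_add₀ hq0]
  congr 1
  rw [h]
  push_cast
  ring

theorem prfVHQ : VHQ := by
  intro κ X ρ _ _ k d n hn q a I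
  obtain ⟨⟨A, c, hRep⟩, hArg⟩ := hn
  have hq : 0 < (q : ℕ) := q.2.pos
  have hs : ∀ j, VHQ_s (A j) ≠ 0 := by
    intro j h0
    have hA : ∀ i, A j i = 0 := fun i => by
      have := DFunLike.congr_fun h0 i
      rwa [VHQ_s_apply] at this
    obtain ⟨l, h1, h2, h3⟩ := (hRep.and (hArg.and (X.hm ((c j).toNat + 1)))).exists
    have h4 := h1 j
    have h5 : ∑ i, (A j i : ℤ) * (X.w l i : ℤ) = 0 := by
      refine Finset.sum_eq_zero fun i _ => ?_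
      rw [hA i]
      simp
    rw [h5, zero_add] at h4
    have h6 := h2.2 j
    have h7 : (n l j : ℤ).toNat = n l j := Int.toNat_natCast _
    rw [h4] at h7
    omega
  refine ⟨∏ v : ρ × Fin k, (1 - C (a v.1) *
    monomial (VHQ_s (A v.2)) (((q : ℕ) : ℚ) ^ (-c v.2))) ^ (d - (I v : ℕ)), ?_, ?_⟩
  · have hz : ∀ j, constantCoeff (monomial (VHQ_s (A j)) (((q : ℕ) : ℚ) ^ (-c j))) = 0 := by
      intro j
      rw [MvPolynomial.constantCoeff_monomial, if_neg (hs j)]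
    rw [← MvPolynomial.constantCoeff_eq, map_prod]
    refine Finset.prod_eq_one fun v _ => ?_
    rw [map_pow, map_sub, map_mul, map_one, hz v.2, mul_zero, sub_zero, one_pow]
  · filter_upwards [hRep] with l hl
    have hv : ∀ j, (MvPolynomial.aeval (fun i => vz (X.w l) (q, i))
        (monomial (VHQ_s (A j)) (((q : ℕ) : ℚ) ^ (-c j))) : ℚ) = (((q : ℕ) : ℚ) ^ n l j)⁻¹ := by
      intro j
      exact VHQ_val (q : ℕ) hq (X.w l) (A j) (c j) (n l j) (hl j)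
    rw [map_prod]
    unfold ef
    push_cast
    refine Finset.prod_congr rfl fun v _ => ?_
    rw [map_pow, map_sub, map_mul, map_one, hv v.2, MvPolynomial.aeval_C]
    push_cast
    rfl

end Pool.Agent.Work.MP_f1a024_nt.TV
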