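import Pool.Agent.Work.MP_f1a024_nt.TV.Stmts

/-!
# VIP: independence of characters on the large primes
-/

namespace Pool.Agent.Work.MP_f1a024_nt.TV

open Finset MvPolynomial Filter

/-- the rational value of a real character -/
theorem VIP_chq {D : ℕ} (χ : DirichletCharacter ℂ D) (hχ : χ ^ 2 = 1) (s : ℕ) :
    ((chq χ s : ℚ) : ℂ) = χ (s : ZMod D) := by
  unfold chq
  by_cases h0 : χ (s : ZMod D) = 0
  · simp [h0]
  · have hu : IsUnit (s : ZMod D) := by
      by_contra hc
      exact h0 (χ.map_nonunit hc)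
    have h2 : χ (s : ZMod D) ^ 2 = 1 := by
      have h3 : (χ ^ 2) (s : ZMod D) = 1 := by
        rw [hχ]
        exact MulChar.one_apply hu
      rw [MulChar.pow_apply' χ two_ne_zero] at h3
      exact h3
    rw [if_neg h0]
    have h4 : (χ (s : ZMod D) - 1) * (χ (s : ZMod D) + 1) = 0 := by
      linear_combination h2
    rcases mul_eq_zero.mp h4 with h | h
    · have h5 : χ (s : ZMod D) = 1 := by linear_combination h
      rw [h5]
      simp
    · have h5 : χ (s : ZMod D) = -1 := by linear_combination h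
      rw [h5, if_neg (by norm_num)]
      simp

/-- the character as a homomorphism on the units modulo a multiple of the modulus -/
noncomputable def VIP_psi {D D₀ : ℕ} (h : D ∣ D₀) (χ : DirichletCharacter ℂ D) :
    (ZMod D₀)ˣ →* ℂ :=
  (χ.toMonoidHom.comp (ZMod.castHom h (ZMod D)).toMonoidHom).comp (Units.coeHom (ZMod D₀))

theorem VIP_psi_apply {D D₀ : ℕ} (h : D ∣ D₀) (χ : DirichletCharacter ℂ D) (a : (ZMod D₀)ˣ)
    (q : ℕ) (hq : (q : ZMod D₀) = a) : VIP_psi h χ a = χ (q : ZMod D) := by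
  have : ZMod.castHom h (ZMod D) (a : ZMod D₀) = (q : ZMod D) := by
    rw [← hq, map_natCast]
  show χ (ZMod.castHom h (ZMod D) (a : ZMod D₀)) = _
  rw [this]

/-- a unit with prescribed residue -/
theorem VIP_unit {D₀ D : ℕ} [NeZero D₀] [NeZero D] (m : ℕ) (hm : m.Coprime D) :
    ∃ (a : (ZMod D₀)ˣ) (q : ℕ), (q : ZMod D₀) = a ∧ (q : ZMod D) = m := by
  obtain ⟨q, hq, hqp, hqm⟩ := Nat.forall_exists_prime_gt_and_eq_mod
    (q := D) (a := (m : ZMod D)) ((ZMod.isUnit_iff_coprime m D).mpr hm) D₀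
  have hc : q.Coprime D₀ := by
    rw [Nat.Prime.coprime_iff_not_dvd hqp]
    intro h
    exact absurd (Nat.le_of_dvd (Nat.pos_of_ne_zero (NeZero.ne D₀)) h) (by omega)
  exact ⟨ZMod.unitOfCoprime q hc, q, by simp, hqm⟩

theorem prfVIP : VIP := by
  intro r D _ χ hχ2 hχ1 hχ e he N
  by_contra hcon
  push Not at hcon
  set D₀ : ℕ := ∏ i, D i with hD₀
  haveI hne : NeZero D₀ := ⟨Finset.prod_ne_zero_iff.mpr fun i _ => NeZero.ne (D i)⟩
  have hdvd : ∀ i, D i ∣ D₀ := fun i => Finset.dvd_prod_of_mem D (mem_univ i)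
  let ψ : Option (Fin r) → ((ZMod D₀)ˣ →* ℂ) := fun o =>
    match o with
    | none => 1
    | some i => VIP_psi (hdvd i) (χ i)
  have hinj : Function.Injective ψ := by
    have hsn : ∀ i, ψ (some i) ≠ ψ none := by
      intro i hi
      have h1 : ∃ m : ℕ, m.Coprime (D i) ∧ χ i (m : ZMod (D i)) ≠ 1 := by
        by_contra hc
        push Not at hc
        apply hχ1 i
        ext a
        rw [MulChar.one_apply_coe]
        have := hc (a : ZMod (D i)).val (ZMod.val_coe_unit_coprime a)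
        rwa [ZMod.natCast_zmod_val] at this
      obtain ⟨m, hm, hm1⟩ := h1
      obtain ⟨a, q, hqa, hqm⟩ := VIP_unit (D₀ := D₀) m hm
      have h2 := DFunLike.congr_fun hi a
      have h3 : ψ (some i) a = χ i (q : ZMod (D i)) := VIP_psi_apply (hdvd i) (χ i) a q hqa
      rw [h3, hqm] at h2
      exact hm1 h2
    intro o o' hoo
    match o, o' with
    | none, none => rfl
    | none, some i => exact absurd hoo.symm (hsn i)
    | some i, none => exact absurd hoo (hsn i)
    | some i, some j =>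
      by_contra hne'
      have hij : i ≠ j := fun h => hne' (by rw [h])
      obtain ⟨m, hm, hmn⟩ := hχ i j hij
      haveI : NeZero (D i * D j) := ⟨mul_ne_zero (NeZero.ne _) (NeZero.ne _)⟩
      obtain ⟨a, q, hqa, hqm⟩ := VIP_unit (D₀ := D₀) m hm
      have h2 := DFunLike.congr_fun hoo a
      have h3 : ψ (some i) a = χ i (q : ZMod (D i)) := VIP_psi_apply (hdvd i) (χ i) a q hqa
      have h4 : ψ (some j) a = χ j (q : ZMod (D j)) := VIP_psi_apply (hdvd j) (χ j) a q hqa
      have h5 : (q : ZMod (D i)) = m := by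
        have := congrArg (ZMod.castHom (Dvd.intro _ rfl : D i ∣ D i * D j) (ZMod (D i))) hqm
        simpa using this
      have h6 : (q : ZMod (D j)) = m := by
        have := congrArg (ZMod.castHom (Dvd.intro_left _ rfl : D j ∣ D i * D j) (ZMod (D j))) hqm
        simpa using this
      rw [h3, h4, h5, h6] at h2
      exact hmn h2
  have hli : LinearIndependent ℂ (fun o => (ψ o : (ZMod D₀)ˣ → ℂ)) :=
    (linearIndependent_monoidHom (ZMod D₀)ˣ ℂ).comp ψ hinj
  rw [Fintype.linearIndependent_iff] at hli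
  have hz : ∑ o, ((e o : ℤ) : ℂ) • (ψ o : (ZMod D₀)ˣ → ℂ) = 0 := by
    funext a
    obtain ⟨q, hq, hqp, hqa⟩ := Nat.forall_exists_prime_gt_and_eq_mod
      (q := D₀) (a := (a : ZMod D₀)) a.isUnit N
    have h1 := hcon q hqp hq
    have h2 : ((∑ o, (e o : ℚ) * chf D χ o q : ℚ) : ℂ) = 0 := by
      rw [h1]
      simp
    rw [Finset.sum_apply, Pi.zero_apply, ← h2, Rat.cast_sum]
    refine Finset.sum_congr rfl fun o _ => ?_
    rw [Pi.smul_apply, smul_eq_mul, Rat.cast_mul, Rat.cast_intCast]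
    congr 1
    match o with
    | none =>
      show (1 : ℂ) = ((1 : ℚ) : ℂ)
      simp
    | some i =>
      show VIP_psi (hdvd i) (χ i) a = ((chq (χ i) q : ℚ) : ℂ)
      rw [VIP_chq (χ i) (hχ2 i) q]
      exact VIP_psi_apply (hdvd i) (χ i) a q hqa
  apply he
  funext o
  have := hli _ hz o
  exact_mod_cast this

end Pool.Agent.Work.MP_f1a024_nt.TV
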