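import Pool.Agent.Work.MP_f1a024_nt.TV.Stmts

/-!
# Block TV, item VLB: independence of the products of powers
-/

set_option autoImplicit false

namespace Pool.Agent.Work.MP_f1a024_nt.TV

open Finset MvPolynomial Filter
open Pool.Agent.Work.MP_f1a024_nt.AH (PG val D1 D2 D4)
open Pool.Agent.Work.MP_f1a024_nt.TU

theorem VLB_evC {κ : ℕ} (w : Fin κ → ℕ) (a : ℚ) (g : Rv κ) : evw w (C a * g) = a * evw w g := by
  unfold evw
  rw [map_mul, MvPolynomial.aeval_C]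
  rfl

/-- one term only -/
theorem VLB_one (hNA : NA) (hC1 : C1) (hB0 : B0) (hVTA : VTA) {κ : ℕ} (X : Cx κ) {ρ : Type}
    [Fintype ρ] [DecidableEq ρ] {k d : ℕ} (n : ℕ → Fin k → ℕ) (f : ρ → ℕ → ℚ) (hA : Arg X n)
    (hf : ∀ i, CM (f i)) (Q : Finset Nat.Primes) (g : (ρ × Fin k → Fin (d + 1)) → Rv κ)
    (I₀ : ρ × Fin k → Fin (d + 1)) (h0 : g I₀ ≠ 0) (h1 : ∀ I, I ≠ I₀ → g I = 0)
    (hR : RF X f n Q g) : False := by
  obtain ⟨-, -, -, hcong, -, -, -, -, -, -, hlow⟩ := hNA κ X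
  obtain ⟨-, -, hmo, -, -, -, -, hc8, -⟩ := hC1 κ
  have hsum : ∀ l, ∑ I, ((evw (X.w l) (g I) : ℚ) : ℝ) * tJ f Q (n l) I =
      ((evw (X.w l) (g I₀) : ℚ) : ℝ) * tJ f Q (n l) I₀ := by
    intro l
    refine Finset.sum_eq_single I₀ ?_ ?_
    · intro I _ hI
      rw [h1 I hI, map_zero]
      simp
    · intro h
      exact absurd (Finset.mem_univ _) h
  have hR' : Neg X fun l => ((evw (X.w l) (g I₀) : ℚ) : ℝ) * tJ f Q (n l) I₀ := by
    have h2 : (fun l => ∑ I, ((evw (X.w l) (g I) : ℚ) : ℝ) * tJ f Q (n l) I) =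
        fun l => ((evw (X.w l) (g I₀) : ℚ) : ℝ) * tJ f Q (n l) I₀ := by
      funext l
      exact hsum l
    unfold RF at hR
    rw [h2] at hR
    exact hR
  obtain ⟨b, hb⟩ : (g I₀).support.Nonempty := by
    rw [Finset.nonempty_iff_ne_empty]
    intro h
    exact h0 (MvPolynomial.support_eq_empty.1 h)
  obtain ⟨c, hc0, -, hc⟩ := hc8 X b
  have hB := hB0 κ X (g I₀) 1 h0 one_pos
  have hT : ∀ᶠ l : ℕ in (X.𝒰 : Filter ℕ), ∀ v : ρ × Fin k,
      1 / 2 ≤ val (fq (f v.1) Q) (n l v.2) := by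
    rw [Filter.eventually_all]
    intro v
    exact (hVTA κ X k n hA (f v.1) (hf v.1) Q v.2).2
  refine hlow (fun l => ((evw (X.w l) (g I₀) : ℚ) : ℝ) * tJ f Q (n l) I₀)
    (∏ v : ρ × Fin k, (1 / 2 : ℝ) ^ (I₀ v : ℕ)) (Real.exp (-1) * c) ?_ ?_ ?_ hR'
  · exact Finset.prod_pos fun v _ => by positivity
  · positivity
  · filter_upwards [hc, hB, hT] with l h2 h3 h4
    have h5 := h3 b hb
    have h6 : ∏ v : ρ × Fin k, (1 / 2 : ℝ) ^ (I₀ v : ℕ) ≤ tJ f Q (n l) I₀ := by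
      unfold tJ
      refine Finset.prod_le_prod (fun v _ => by positivity) fun v _ => ?_
      exact pow_le_pow_left₀ (by norm_num) (h4 v) _
    have h7 : (0 : ℝ) < ∏ v : ρ × Fin k, (1 / 2 : ℝ) ^ (I₀ v : ℕ) :=
      Finset.prod_pos fun v _ => by positivity
    have h8 : (Real.exp (-1) * c) ^ X.m l ≤ |((evw (X.w l) (g I₀) : ℚ) : ℝ)| := by
      rw [mul_pow, ← Real.exp_nat_mul]
      have e : ((X.m l : ℕ) : ℝ) * -1 = -(1 * (X.m l : ℝ)) := by ring
      rw [e]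
      exact le_trans (mul_le_mul_of_nonneg_left h2 (Real.exp_pos _).le) h5
    rw [abs_mul, abs_of_pos (lt_of_lt_of_le h7 h6), mul_comm (|_|)]
    exact mul_le_mul h6 h8 (by positivity) (le_trans h7.le h6)

/-- a large prime -/
theorem VLB_prime {κ : ℕ} {ρ : Type} [Fintype ρ] [DecidableEq ρ] {k d : ℕ} (f : ρ → ℕ → ℚ)
    (hI : IP f) (Q : Finset Nat.Primes) (g : (ρ × Fin k → Fin (d + 1)) → Rv κ) (e : ρ → ℤ)
    (he : e ≠ 0) (N : ℕ) : ∃ q : Nat.Primes, N < (q : ℕ) ∧ q ∉ Q ∧ (∀ I, Free {q} (g I)) ∧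
      ∑ i, (e i : ℚ) * f i q ≠ 0 := by
  classical
  obtain ⟨q, hq, hN, hs⟩ := hI e he
    (N + ∑ p ∈ Q, (p : ℕ) + ∑ I, ∑ v ∈ (g I).vars, (v.1 : ℕ))
  obtain ⟨q', rfl⟩ : ∃ q' : Nat.Primes, (q' : ℕ) = q := ⟨⟨q, hq⟩, rfl⟩
  refine ⟨q', by omega, ?_, ?_, hs⟩
  · intro h
    have h1 : (q' : ℕ) ≤ ∑ p ∈ Q, (p : ℕ) :=
      Finset.single_le_sum (f := fun p : Nat.Primes => (p : ℕ)) (fun _ _ => Nat.zero_le _) h
    omega
  · intro I v hv hvq
    rw [Finset.mem_singleton] at hvq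
    have h1 : (v.1 : ℕ) ≤ ∑ v ∈ (g I).vars, (v.1 : ℕ) :=
      Finset.single_le_sum (f := fun v : Vr κ => (v.1 : ℕ)) (fun _ _ => Nat.zero_le _) hv
    have h3 : ∑ v ∈ (g I).vars, (v.1 : ℕ) ≤ ∑ I, ∑ v ∈ (g I).vars, (v.1 : ℕ) :=
      Finset.single_le_sum (f := fun I => ∑ v ∈ (g I).vars, (v.1 : ℕ))
        (fun _ _ => Nat.zero_le _) (Finset.mem_univ I)
    have h2 : (v.1 : ℕ) = (q' : ℕ) := by rw [hvq]
    omega

/-- the linear combination of two relations -/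
theorem VLB_comb (hNA : NA) {κ : ℕ} (X : Cx κ) {ρ : Type} [Fintype ρ] [DecidableEq ρ] {k d : ℕ}
    (n : ℕ → Fin k → ℕ) (f : ρ → ℕ → ℚ) (Q : Finset Nat.Primes)
    (g : (ρ × Fin k → Fin (d + 1)) → Rv κ) (a : (ρ × Fin k → Fin (d + 1)) → ℚ) (c : ℚ)
    (h1 : RF X f n Q fun I => C (a I) * g I) (h2 : RF X f n Q fun I => C 1 * g I) :
    RF X f n Q fun I => C (a I - c) * g I := by
  obtain ⟨hadd, hmul, -, hcong, -, -, -, hconst, -⟩ := hNA κ X
  unfold RF at *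
  have h3 := hadd _ _ h1 (hmul _ _ h2 (hconst (-(c : ℝ))))
  refine hcong _ _ (Filter.Eventually.of_forall fun l => ?_) h3
  simp only
  rw [Finset.sum_mul, ← Finset.sum_add_distrib]
  refine Finset.sum_congr rfl fun I _ => ?_
  rw [VLB_evC, VLB_evC, VLB_evC]
  push_cast
  ring

/-- the step: a relation with fewer terms -/
theorem VLB_step (hNA : NA) (hVHQ : VHQ) (hVLBa : VLBa) (hVSEP : VSEP) {κ : ℕ} (X : Cx κ)
    {ρ : Type} [Fintype ρ] [DecidableEq ρ] {k d : ℕ} (n : ℕ → Fin k → ℕ) (f : ρ → ℕ → ℚ)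
    (hA : Arg X n) (hf : ∀ i, CM (f i)) (hI : IP f) (Q : Finset Nat.Primes)
    (g : (ρ × Fin k → Fin (d + 1)) → Rv κ) (I₀ I₁ : ρ × Fin k → Fin (d + 1)) (hne : I₀ ≠ I₁)
    (h1 : g I₁ ≠ 0) (hR : RF X f n Q g) :
    ∃ (Q' : Finset Nat.Primes) (g' : (ρ × Fin k → Fin (d + 1)) → Rv κ), RF X f n Q' g' ∧
      g' I₀ = 0 ∧ g' I₁ ≠ 0 ∧ ∀ I, g' I ≠ 0 → g I ≠ 0 := by
  classical
  -- the index with the smallest argument
  obtain ⟨j₀, hj₀, hmin⟩ : ∃ j₀ ∈ {j : Fin k | ∃ i, I₀ (i, j) ≠ I₁ (i, j)},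
      ∀ᶠ l : ℕ in (X.𝒰 : Filter ℕ), ∀ j, (∃ i, I₀ (i, j) ≠ I₁ (i, j)) → n l j₀ ≤ n l j := by
    rw [← Ultrafilter.eventually_exists_mem_iff (Set.toFinite _)]
    refine Filter.Eventually.of_forall fun l => ?_
    have hS : (Finset.univ.filter fun j : Fin k => ∃ i, I₀ (i, j) ≠ I₁ (i, j)).Nonempty := by
      by_contra hcon
      rw [Finset.not_nonempty_iff_eq_empty, Finset.filter_eq_empty_iff] at hcon
      apply hne
      funext v
      by_contra hv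
      exact hcon (Finset.mem_univ v.2) ⟨v.1, hv⟩
    obtain ⟨j, hj, hjm⟩ := Finset.exists_min_image _ (fun j => n l j) hS
    refine ⟨j, (Finset.mem_filter.1 hj).2, ?_⟩
    intro j' hj'
    exact hjm j' (Finset.mem_filter.2 ⟨Finset.mem_univ _, hj'⟩)
  obtain ⟨i₁, hi₁⟩ := hj₀
  set e : ρ → ℤ := fun i => ((I₀ (i, j₀) : ℕ) : ℤ) - ((I₁ (i, j₀) : ℕ) : ℤ) with he
  have he0 : e ≠ 0 := by
    intro h
    have h2 := congrFun h i₁
    simp only [he, Pi.zero_apply] at h2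
    apply hi₁
    apply Fin.ext
    omega
  obtain ⟨q, hqN, hqQ, hfree, hqs⟩ := VLB_prime f hI Q g e he0 (4 * k * Fintype.card ρ * d)
  choose h hh0 hh using fun I => hVHQ κ X ρ k d n hA q (fun i => f i q) I
  have hhne : h I₀ ≠ h I₁ := by
    intro hcon
    have ha1 := hh I₀
    have ha2 := hh I₁
    have ha3 := hA.2
    have ha4 := X.hm 1
    obtain ⟨l, hl1, hl2, hl3, hl4, hl5⟩ := (ha1.and (ha2.and (ha3.and (ha4.and hmin)))).exists
    apply hqs
    have h5 := hVSEP ρ k d q (n l) (fun i => f i q) I₀ I₁ j₀ hqN q.2.two_le hl3.1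
      (fun j => le_trans hl4 (hl3.2 j)) (fun i => (hf i).2.2 q) ?_ ?_
    · rw [← h5]
      refine Finset.sum_congr rfl fun i _ => ?_
      simp only [he]
      push_cast
      ring
    · intro j hj i
      by_contra hij
      exact absurd (hl5 j ⟨i, hij⟩) (not_le.2 hj)
    · rw [← hl1, ← hl2, hcon]
  obtain ⟨μ, hμ⟩ : ∃ μ, (h I₀).coeff μ ≠ (h I₁).coeff μ := by
    by_contra hcon
    push Not at hcon
    exact hhne (MvPolynomial.ext _ _ hcon)
  have hr1 := hVLBa κ X ρ k d n f hA hf Q q g h hR hqQ hfree hh μ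
  have hr2 := hVLBa κ X ρ k d n f hA hf Q q g h hR hqQ hfree hh 0
  have hr2' : RF X f n (insert q Q) fun I => C 1 * g I := by
    have e2 : (fun I => C ((h I).coeff 0) * g I) = fun I => C (1 : ℚ) * g I := by
      funext I
      rw [hh0 I]
    rw [e2] at hr2
    exact hr2
  refine ⟨insert q Q, fun I => C ((h I).coeff μ - (h I₀).coeff μ) * g I,
    VLB_comb hNA X n f (insert q Q) g (fun I => (h I).coeff μ) ((h I₀).coeff μ) hr1 hr2', ?_, ?_,
    ?_⟩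
  · simp only
    rw [sub_self, map_zero, zero_mul]
  · simp only
    refine mul_ne_zero ?_ h1
    intro hcon
    rw [MvPolynomial.C_eq_zero, sub_eq_zero] at hcon
    exact hμ hcon.symm
  · intro I hI0 hgI
    apply hI0
    simp only
    rw [hgI, mul_zero]

/-- item VLB -/
theorem prfVLB (hNA : NA) (hC1 : C1) (hB0 : B0) (hVTA : VTA) (hVHQ : VHQ) (hVLBa : VLBa)
    (hVSEP : VSEP) : VLB := by
  classical
  intro κ X ρ _ _ k d n f hA hf hI
  have key : ∀ (s : ℕ) (Q : Finset Nat.Primes) (g : (ρ × Fin k → Fin (d + 1)) → Rv κ),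
      (Finset.univ.filter fun I => g I ≠ 0).card = s → RF X f n Q g → g = 0 := by
    intro s
    induction s using Nat.strong_induction_on with
    | _ s ih =>
      intro Q g hs hR
      by_contra hg
      obtain ⟨I₀, hI₀⟩ : ∃ I₀, g I₀ ≠ 0 := by
        by_contra hcon
        push Not at hcon
        exact hg (funext hcon)
      by_cases hone : ∀ I, I ≠ I₀ → g I = 0
      · exact VLB_one hNA hC1 hB0 hVTA X n f hA hf Q g I₀ hI₀ hone hR
      · push Not at hone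
        obtain ⟨I₁, hI₁, hgI₁⟩ := hone
        obtain ⟨Q', g', hR', h0', h1', hsub⟩ := VLB_step hNA hVHQ hVLBa hVSEP X n f hA hf hI Q g
          I₀ I₁ hI₁.symm hgI₁ hR
        have hlt : (Finset.univ.filter fun I => g' I ≠ 0).card < s := by
          rw [← hs]
          apply Finset.card_lt_card
          rw [Finset.ssubset_iff_of_subset]
          · refine ⟨I₀, Finset.mem_filter.2 ⟨Finset.mem_univ _, hI₀⟩, ?_⟩
            intro hmem
            exact (Finset.mem_filter.1 hmem).2 h0'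
          · intro I hI'
            rw [Finset.mem_filter] at hI' ⊢
            exact ⟨hI'.1, hsub I hI'.2⟩
        have h2 := ih _ hlt Q' g' rfl hR'
        exact h1' (by rw [h2]; rfl)
  intro g hR
  exact key _ ∅ g rfl hR

end Pool.Agent.Work.MP_f1a024_nt.TV
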