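import Pool.Agent.Work.MP_f1a024_nt.TV.Stmts

/-!
# Block TV, item VLBa: separation of an Euler factor
-/

set_option autoImplicit false

namespace Pool.Agent.Work.MP_f1a024_nt.TV

open Finset MvPolynomial Filter
open Pool.Agent.Work.MP_f1a024_nt.AH (PG val D1 D2 D4)
open Pool.Agent.Work.MP_f1a024_nt.TU

theorem VLBa_free {κ : ℕ} (F : Finset Nat.Primes) (c : ℚ) (g : Rv κ) (hg : Free F g) :
    Free F (C c * g) := by
  classical
  intro v hv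
  have h1 := MvPolynomial.vars_mul (C c) g hv
  rw [MvPolynomial.vars_C, Finset.empty_union] at h1
  exact hg v h1

theorem VLBa_evw {κ : ℕ} (w : Fin κ → ℕ) (c : ℚ) (g : Rv κ) :
    evw w (C c * g) = c * evw w g := by
  unfold evw
  rw [map_mul, MvPolynomial.aeval_C]
  rfl

theorem VLBa_euler {ρ : Type} [Fintype ρ] {k d : ℕ} (f : ρ → ℕ → ℚ) (q : Nat.Primes)
    (Q : Finset Nat.Primes) (n : Fin k → ℕ) (I : ρ × Fin k → Fin (d + 1))
    (h : ∀ v : ρ × Fin k, (1 - ((f v.1 q : ℚ) : ℝ) * (((q : ℕ) : ℝ) ^ n v.2)⁻¹) *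
      val (fq (f v.1) Q) (n v.2) = val (fq (f v.1) (insert q Q)) (n v.2)) :
    tJ f Q n I * ∏ v : ρ × Fin k, (1 - ((f v.1 q : ℚ) : ℝ) * (((q : ℕ) : ℝ) ^ n v.2)⁻¹) ^ d =
      ef (q : ℕ) (fun i => f i q) n I * tJ f (insert q Q) n I := by
  unfold tJ ef
  rw [← Finset.prod_mul_distrib, ← Finset.prod_mul_distrib]
  apply Finset.prod_congr rfl
  intro v _
  have hd : (I v : ℕ) ≤ d := Nat.lt_succ_iff.mp (I v).isLt
  have e : (1 - ((f v.1 q : ℚ) : ℝ) * (((q : ℕ) : ℝ) ^ n v.2)⁻¹) ^ d =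
      (1 - ((f v.1 q : ℚ) : ℝ) * (((q : ℕ) : ℝ) ^ n v.2)⁻¹) ^ (I v : ℕ) *
        (1 - ((f v.1 q : ℚ) : ℝ) * (((q : ℕ) : ℝ) ^ n v.2)⁻¹) ^ (d - (I v : ℕ)) := by
    rw [← pow_add, Nat.add_sub_cancel' hd]
  rw [e, ← h v, mul_pow]
  ring

theorem VLBa_aeval {κ : ℕ} (x : Fin κ → ℚ) (h : MvPolynomial (Fin κ) ℚ)
    (Λ : Finset (Fin κ →₀ ℕ)) (hΛ : h.support ⊆ Λ) :
    ((MvPolynomial.aeval x h : ℚ) : ℝ) =
      ∑ μ ∈ Λ, ((h.coeff μ : ℚ) : ℝ) * ((μ.prod fun i s => x i ^ s : ℚ) : ℝ) := by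
  rw [MvPolynomial.aeval_def, MvPolynomial.eval₂_eq, Rat.cast_sum]
  rw [Finset.sum_subset hΛ]
  · apply Finset.sum_congr rfl
    intro μ _
    rw [Rat.cast_mul]
    rfl
  · intro μ _ hμ
    rw [MvPolynomial.notMem_support_iff.mp hμ]
    simp

theorem VLBa_abs {ρ : Type} (f : ρ → ℕ → ℚ) (hf : ∀ i, CM (f i)) (q : Nat.Primes) (i : ρ)
    (n : ℕ) : |1 - ((f i q : ℚ) : ℝ) * (((q : ℕ) : ℝ) ^ n)⁻¹| ≤ 2 := by
  have hq : (1 : ℝ) ≤ ((q : ℕ) : ℝ) := by exact_mod_cast q.2.one_lt.le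
  have hz0 : 0 ≤ (((q : ℕ) : ℝ) ^ n)⁻¹ := by positivity
  have hz1 : (((q : ℕ) : ℝ) ^ n)⁻¹ ≤ 1 := inv_le_one_of_one_le₀ (one_le_pow₀ hq)
  rcases (hf i).2.2 q with h | h | h <;> rw [h] <;> push_cast <;> rw [abs_le] <;>
    constructor <;> linarith

theorem VLBa_bdd {κ : ℕ} (X : Cx κ) {ρ : Type} [Fintype ρ] {k : ℕ} (d : ℕ) (f : ρ → ℕ → ℚ)
    (hf : ∀ i, CM (f i)) (q : Nat.Primes) (n : ℕ → Fin k → ℕ) :
    Bdd X fun l => ∏ v : ρ × Fin k,
      (1 - ((f v.1 q : ℚ) : ℝ) * (((q : ℕ) : ℝ) ^ n l v.2)⁻¹) ^ d := by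
  refine ⟨(2 ^ d) ^ (Fintype.card (ρ × Fin k)), one_le_pow₀ (one_le_pow₀ (by norm_num)), ?_⟩
  filter_upwards [X.hm 1] with l hl
  rw [Finset.abs_prod]
  have h1 : ∏ v : ρ × Fin k, |(1 - ((f v.1 q : ℚ) : ℝ) * (((q : ℕ) : ℝ) ^ n l v.2)⁻¹) ^ d| ≤
      ∏ _v : ρ × Fin k, (2 : ℝ) ^ d := by
    apply Finset.prod_le_prod
    · intro v _
      exact abs_nonneg _
    · intro v _
      rw [abs_pow]
      exact pow_le_pow_left₀ (abs_nonneg _) (VLBa_abs f hf q v.1 (n l v.2)) _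
  refine h1.trans ?_
  rw [Finset.prod_const, Finset.card_univ]
  have h2 : (1 : ℝ) ≤ (2 ^ d) ^ (Fintype.card (ρ × Fin k)) :=
    one_le_pow₀ (one_le_pow₀ (by norm_num))
  calc ((2 : ℝ) ^ d) ^ (Fintype.card (ρ × Fin k))
      = ((2 ^ d) ^ (Fintype.card (ρ × Fin k))) ^ 1 := (pow_one _).symm
    _ ≤ ((2 ^ d) ^ (Fintype.card (ρ × Fin k))) ^ X.m l := pow_le_pow_right₀ h2 hl

theorem prfVLBa (hNA : NA) (hAX : AX) (hVEU : VEU) (hVTA : VTA) (hQI : QI) : VLBa := by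
  classical
  intro κ X ρ _ _ k d n f hArg hf Q q g h hRQ hqQ hfree hh μ
  obtain ⟨-, hN2, -, hN4, -⟩ := hNA κ X
  obtain ⟨-, -, hA3, hA4, hA5, -, hA7, hA8, hA9⟩ := hAX κ X
  set Λ : Finset (Fin κ →₀ ℕ) := Finset.univ.biUnion fun I => (h I).support with hΛdef
  have hΛ : ∀ I, (h I).support ⊆ Λ := fun I =>
    Finset.subset_biUnion_of_mem (fun I => (h I).support) (Finset.mem_univ I)
  set a : (Fin κ →₀ ℕ) → ℕ → ℝ := fun μ l => ∑ I,
    ((evw (X.w l) (C ((h I).coeff μ) * g I) : ℚ) : ℝ) * tJ f (insert q Q) (n l) I with ha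
  by_cases hμ : μ ∈ Λ
  · -- the hypotheses of `QI`
    have hApx : ∀ μ ∈ Λ, Apx X {q} (a μ) := by
      intro μ _
      have hT : ∀ I : ρ × Fin k → Fin (d + 1), Apx X {q} fun l => tJ f (insert q Q) (n l) I := by
        intro I
        apply hA5 (insert q Q) {q} _ (by simp)
        unfold tJ
        apply hA8 (insert q Q) (ρ × Fin k) Finset.univ
          (fun v l => val (fq (f v.1) (insert q Q)) (n l v.2) ^ (I v : ℕ))
        intro v _
        exact hA9 _ _ _ ((hVTA κ X k n hArg (f v.1) (hf v.1) (insert q Q) v.2).1)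
      apply hA7 {q} (ρ × Fin k → Fin (d + 1)) Finset.univ
        (fun I l => ((evw (X.w l) (C ((h I).coeff μ) * g I) : ℚ) : ℝ) *
          tJ f (insert q Q) (n l) I)
      intro I _
      exact hA3 {q} _ _ (hA4 {q} _ (VLBa_free {q} _ _ (hfree I))) (hT I)
    have hNeg : Neg X fun l => ∑ μ ∈ Λ,
        a μ l * ((μ.prod fun i s => vz (X.w l) (q, i) ^ s : ℚ) : ℝ) := by
      refine hN4 _ _ ?_ (hN2 _ _ hRQ (VLBa_bdd X d f hf q n))
      have hh' := Filter.eventually_all.mpr hh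
      filter_upwards [X.hm 2, hArg.2, hh'] with l hl hl2 hl3
      have hE : ∀ v : ρ × Fin k, (1 - ((f v.1 q : ℚ) : ℝ) * (((q : ℕ) : ℝ) ^ n l v.2)⁻¹) *
          val (fq (f v.1) Q) (n l v.2) = val (fq (f v.1) (insert q Q)) (n l v.2) := fun v =>
        hVEU (f v.1) (hf v.1) Q q hqQ _ (hl.trans (hl2.2 v.2))
      rw [Finset.sum_mul]
      have e1 : ∀ I : ρ × Fin k → Fin (d + 1),
          ((evw (X.w l) (g I) : ℚ) : ℝ) * tJ f Q (n l) I *
            ∏ v : ρ × Fin k, (1 - ((f v.1 q : ℚ) : ℝ) * (((q : ℕ) : ℝ) ^ n l v.2)⁻¹) ^ d =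
          ∑ μ ∈ Λ, ((evw (X.w l) (C ((h I).coeff μ) * g I) : ℚ) : ℝ) *
            tJ f (insert q Q) (n l) I *
            ((μ.prod fun i s => vz (X.w l) (q, i) ^ s : ℚ) : ℝ) := by
        intro I
        rw [mul_assoc, VLBa_euler f q Q (n l) I hE, ← hl3 I, VLBa_aeval _ _ Λ (hΛ I),
          Finset.sum_mul, Finset.mul_sum]
        apply Finset.sum_congr rfl
        intro μ _
        rw [VLBa_evw, Rat.cast_mul]
        ring
      rw [Finset.sum_congr rfl fun I _ => e1 I, Finset.sum_comm]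
      apply Finset.sum_congr rfl
      intro μ _
      rw [ha]
      simp only
      rw [Finset.sum_mul]
    exact hQI κ X q Λ a hApx hNeg μ hμ
  · have h0 : ∀ I, (h I).coeff μ = 0 := by
      intro I
      by_contra hne
      exact hμ (hΛ I (MvPolynomial.mem_support_iff.mpr hne))
    intro θ hθ
    refine Filter.Eventually.of_forall fun l => ?_
    have : ∑ I, ((evw (X.w l) (C ((h I).coeff μ) * g I) : ℚ) : ℝ) *
        tJ f (insert q Q) (n l) I = 0 := by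
      apply Finset.sum_eq_zero
      intro I _
      rw [h0 I, VLBa_evw]
      simp
    simp only [this, abs_zero]
    positivity

end Pool.Agent.Work.MP_f1a024_nt.TV
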