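import Pool.Agent.Work.MP_f1a024_nt.TV.Stmts

/-!
# Block TV, item VSEP: the cleared Euler factors at a large prime
-/

set_option autoImplicit false

namespace Pool.Agent.Work.MP_f1a024_nt.TV

open Finset

/-- minus the logarithm of the Euler factor -/
noncomputable def VSEP_psi (a z : ℝ) : ℝ := -Real.log (1 - a * z)

theorem VSEP_bd {a z : ℝ} (ha : a = 0 ∨ a = 1 ∨ a = -1) (h0 : 0 < z) (h1 : z ≤ 1 / 2) :
    |a * z - VSEP_psi a z| ≤ 2 * z ^ 2 ∧ |VSEP_psi a z| ≤ 2 * z ∧ 0 < 1 - a * z := by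
  unfold VSEP_psi
  have hz2 : 0 ≤ z ^ 2 := sq_nonneg z
  rcases ha with rfl | rfl | rfl
  · rw [zero_mul, sub_zero, Real.log_one, neg_zero, sub_zero, abs_zero]
    exact ⟨by positivity, by positivity, one_pos⟩
  · rw [one_mul]
    have hz : 0 < 1 - z := by linarith
    have a1 : Real.log (1 - z) ≤ (1 - z) - 1 := Real.log_le_sub_one_of_pos hz
    have a2 : Real.log ((1 - z)⁻¹) ≤ (1 - z)⁻¹ - 1 := Real.log_le_sub_one_of_pos (by positivity)
    rw [Real.log_inv] at a2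
    have a3 : (1 - z)⁻¹ ≤ 1 + z + 2 * z ^ 2 := by
      rw [inv_le_iff_one_le_mul₀ hz]
      have : (1 + z + 2 * z ^ 2) * (1 - z) = 1 + z ^ 2 * (1 - 2 * z) := by ring
      rw [this]
      have h2 : 0 ≤ z ^ 2 * (1 - 2 * z) := mul_nonneg hz2 (by linarith)
      linarith
    have a4 : 2 * z ^ 2 ≤ z := by
      have : z * z ≤ z * (1 / 2) := mul_le_mul_of_nonneg_left h1 h0.le
      have h3 : z ^ 2 = z * z := by ring
      rw [h3]
      linarith
    refine ⟨?_, ?_, hz⟩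
    · rw [abs_le]
      constructor <;> linarith
    · rw [abs_le]
      constructor <;> linarith
  · have hz : 0 < 1 + z := by linarith
    have h5 : (1 : ℝ) - -1 * z = 1 + z := by ring
    rw [h5]
    have a1 : Real.log (1 + z) ≤ (1 + z) - 1 := Real.log_le_sub_one_of_pos hz
    have a2 : Real.log ((1 + z)⁻¹) ≤ (1 + z)⁻¹ - 1 := Real.log_le_sub_one_of_pos (by positivity)
    rw [Real.log_inv] at a2
    have a3 : (1 + z)⁻¹ ≤ 1 - z + z ^ 2 := by
      rw [inv_le_iff_one_le_mul₀ hz]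
      have : (1 - z + z ^ 2) * (1 + z) = 1 + z ^ 2 * z := by ring
      rw [this]
      have h2 : 0 ≤ z ^ 2 * z := mul_nonneg hz2 h0.le
      linarith
    have a4 : 2 * z ^ 2 ≤ z := by
      have : z * z ≤ z * (1 / 2) := mul_le_mul_of_nonneg_left h1 h0.le
      have h3 : z ^ 2 = z * z := by ring
      rw [h3]
      linarith
    refine ⟨?_, ?_, hz⟩
    · rw [abs_le]
      constructor <;> linarith
    · rw [abs_le]
      constructor <;> linarith

theorem VSEP_z {q m : ℕ} (hq : 2 ≤ q) (hm : 1 ≤ m) :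
    0 < ((q : ℝ) ^ m)⁻¹ ∧ ((q : ℝ) ^ m)⁻¹ ≤ 1 / 2 ∧ ((q : ℝ) ^ m)⁻¹ ≤ 1 / q := by
  have hq' : (2 : ℝ) ≤ q := by exact_mod_cast hq
  have h1 : (q : ℝ) ≤ (q : ℝ) ^ m := by
    calc (q : ℝ) = (q : ℝ) ^ 1 := (pow_one _).symm
      _ ≤ (q : ℝ) ^ m := pow_le_pow_right₀ (by linarith) hm
  refine ⟨by positivity, ?_, ?_⟩
  · rw [one_div]
    exact inv_anti₀ (by norm_num) (hq'.trans h1)
  · rw [one_div]
    exact inv_anti₀ (by linarith) h1

theorem VSEP_log {ρ : Type} [Fintype ρ] {k d q : ℕ} (n : Fin k → ℕ) (a : ρ → ℚ)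
    (I : ρ × Fin k → Fin (d + 1)) (hq : 2 ≤ q) (hn : ∀ j, 1 ≤ n j)
    (ha : ∀ i, a i = 0 ∨ a i = 1 ∨ a i = -1) : Real.log (ef q a n I) =
      ∑ v : ρ × Fin k, ((I v : ℕ) : ℝ) * VSEP_psi (a v.1) ((q : ℝ) ^ n v.2)⁻¹ -
        ∑ v : ρ × Fin k, (d : ℝ) * VSEP_psi (a v.1) ((q : ℝ) ^ n v.2)⁻¹ := by
  have haR : ∀ i, (a i : ℝ) = 0 ∨ (a i : ℝ) = 1 ∨ (a i : ℝ) = -1 := by
    intro i
    rcases ha i with h | h | h
    · left; rw [h]; norm_num
    · right; left; rw [h]; norm_num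
    · right; right; rw [h]; norm_num
  have hpos : ∀ v : ρ × Fin k, 0 < 1 - (a v.1 : ℝ) * ((q : ℝ) ^ n v.2)⁻¹ := by
    intro v
    obtain ⟨h0, h1, _⟩ := VSEP_z hq (hn v.2)
    exact (VSEP_bd (haR v.1) h0 h1).2.2
  unfold ef
  rw [Real.log_prod fun v _ => (pow_pos (hpos v) _).ne']
  rw [← Finset.sum_sub_distrib]
  refine Finset.sum_congr rfl fun v _ => ?_
  rw [Real.log_pow, Nat.cast_sub (Nat.lt_succ_iff.1 (I v).2)]
  unfold VSEP_psi
  ring

theorem prfVSEP : VSEP := by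
  intro ρ _ _ k d q n a I J j₀ hq h2 hinj hn ha hlt hef
  have hq2 : (2 : ℝ) ≤ q := by exact_mod_cast h2
  have hq0 : (0 : ℝ) < q := by linarith
  have haR : ∀ i, (a i : ℝ) = 0 ∨ (a i : ℝ) = 1 ∨ (a i : ℝ) = -1 := by
    intro i
    rcases ha i with h | h | h
    · left; rw [h]; norm_num
    · right; left; rw [h]; norm_num
    · right; right; rw [h]; norm_num
  obtain ⟨z, hzd⟩ : ∃ z : Fin k → ℝ, z = fun j => ((q : ℝ) ^ n j)⁻¹ := ⟨_, rfl⟩
  have hz : ∀ j, 0 < z j ∧ z j ≤ 1 / 2 ∧ z j ≤ 1 / q := by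
    intro j
    rw [hzd]
    exact VSEP_z h2 (hn j)
  obtain ⟨e, hed⟩ : ∃ e : ρ → Fin k → ℝ, e = fun i j => ((I (i, j) : ℕ) : ℝ) - ((J (i, j) : ℕ) : ℝ) :=
    ⟨_, rfl⟩
  obtain ⟨ψ, hψd⟩ : ∃ ψ : ρ → Fin k → ℝ, ψ = fun i j => VSEP_psi (a i) (z j) := ⟨_, rfl⟩
  have hψ1 : ∀ i j, |(a i : ℝ) * z j - ψ i j| ≤ 2 * z j ^ 2 := by
    intro i j
    rw [hψd]
    exact (VSEP_bd (haR i) (hz j).1 (hz j).2.1).1
  have hψ2 : ∀ i j, |ψ i j| ≤ 2 * z j := by
    intro i j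
    rw [hψd]
    exact (VSEP_bd (haR i) (hz j).1 (hz j).2.1).2.1
  have hed1 : ∀ i j, |e i j| ≤ d := by
    intro i j
    rw [hed]
    have a4 : ((I (i, j) : ℕ) : ℝ) ≤ d := by exact_mod_cast Nat.lt_succ_iff.1 (I (i, j)).2
    have a5 : ((J (i, j) : ℕ) : ℝ) ≤ d := by exact_mod_cast Nat.lt_succ_iff.1 (J (i, j)).2
    have a6 : (0 : ℝ) ≤ ((I (i, j) : ℕ) : ℝ) := Nat.cast_nonneg _
    have a7 : (0 : ℝ) ≤ ((J (i, j) : ℕ) : ℝ) := Nat.cast_nonneg _
    show |((I (i, j) : ℕ) : ℝ) - ((J (i, j) : ℕ) : ℝ)| ≤ d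
    rw [abs_le]
    constructor <;> linarith
  -- the relation
  have hrel : ∑ j, ∑ i, e i j * ψ i j = 0 := by
    have e1 := VSEP_log n a I h2 hn ha
    have e2 := VSEP_log n a J h2 hn ha
    rw [hef, e2] at e1
    have e3 : ∑ v : ρ × Fin k, (((I v : ℕ) : ℝ) - ((J v : ℕ) : ℝ)) *
        VSEP_psi (a v.1) ((q : ℝ) ^ n v.2)⁻¹ = 0 := by
      simp only [sub_mul]
      rw [Finset.sum_sub_distrib]
      linarith
    rw [Fintype.sum_prod_type_right] at e3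
    rw [hed, hψd, hzd]
    exact e3
  -- the integer
  by_contra hne
  have hbe : ∀ i, ∃ b : ℤ, (b : ℚ) = a i := by
    intro i
    rcases ha i with h | h | h
    · exact ⟨0, by rw [h]; norm_num⟩
    · exact ⟨1, by rw [h]; norm_num⟩
    · exact ⟨-1, by rw [h]; norm_num⟩
  choose b hb using hbe
  have hS1 : ∑ i, (((I (i, j₀) : ℕ) : ℚ) - ((J (i, j₀) : ℕ) : ℚ)) * a i =
      ((∑ i, (((I (i, j₀) : ℕ) : ℤ) - ((J (i, j₀) : ℕ) : ℤ)) * b i : ℤ) : ℚ) := by
    push_cast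
    exact Finset.sum_congr rfl fun i _ => by rw [hb i]
  obtain ⟨T, hT⟩ : ∃ T : ℤ, T = ∑ i, (((I (i, j₀) : ℕ) : ℤ) - ((J (i, j₀) : ℕ) : ℤ)) * b i := ⟨_, rfl⟩
  rw [← hT] at hS1
  rw [hS1] at hne
  have hT0 : T ≠ 0 := by
    intro h
    apply hne
    rw [h]
    norm_num
  have hT1 : (1 : ℝ) ≤ |(T : ℝ)| := by
    have := Int.one_le_abs hT0
    exact_mod_cast this
  have hTR : (T : ℝ) = ∑ i, e i j₀ * (a i : ℝ) := by
    have h1 : (T : ℝ) = ∑ i, (((I (i, j₀) : ℕ) : ℝ) - ((J (i, j₀) : ℕ) : ℝ)) * (b i : ℝ) := by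
      rw [hT]
      push_cast
      rfl
    rw [h1, hed]
    refine Finset.sum_congr rfl fun i _ => ?_
    have h3 : ((b i : ℚ) : ℝ) = (a i : ℝ) := by rw [hb i]
    rw [← h3]
    norm_num
  have hz0 := (hz j₀).1
  -- the terms at j₀
  have hfirst : |∑ i, e i j₀ * ((a i : ℝ) * z j₀ - ψ i j₀)| ≤
      (Fintype.card ρ : ℝ) * (d * (2 * (z j₀ / q))) := by
    refine (Finset.abs_sum_le_sum_abs _ _).trans ?_
    have h1 : ∀ i ∈ (univ : Finset ρ), |e i j₀ * ((a i : ℝ) * z j₀ - ψ i j₀)| ≤ d * (2 * (z j₀ / q)) := by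
      intro i _
      rw [abs_mul]
      refine mul_le_mul (hed1 i j₀) ?_ (abs_nonneg _) (Nat.cast_nonneg _)
      refine (hψ1 i j₀).trans ?_
      have h3 : z j₀ ^ 2 ≤ z j₀ / q := by
        rw [sq, div_eq_mul_one_div]
        exact mul_le_mul_of_nonneg_left (hz j₀).2.2 hz0.le
      linarith
    refine (Finset.sum_le_card_nsmul _ _ _ h1).trans (le_of_eq ?_)
    rw [nsmul_eq_mul, Finset.card_univ]
  have hsecond : |∑ j ∈ univ.erase j₀, ∑ i, e i j * ψ i j| ≤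
      (k : ℝ) * ((Fintype.card ρ : ℝ) * (d * (2 * (z j₀ / q)))) := by
    refine (Finset.abs_sum_le_sum_abs _ _).trans ?_
    have h1 : ∀ j ∈ univ.erase j₀, |∑ i, e i j * ψ i j| ≤
        (Fintype.card ρ : ℝ) * (d * (2 * (z j₀ / q))) := by
      intro j hj
      have hjne : j ≠ j₀ := (Finset.mem_erase.1 hj).1
      rcases Nat.lt_or_ge (n j) (n j₀) with hlt1 | hge
      · have h3 : ∑ i, e i j * ψ i j = 0 := by
          refine Finset.sum_eq_zero fun i _ => ?_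
          rw [hed]
          show (((I (i, j) : ℕ) : ℝ) - ((J (i, j) : ℕ) : ℝ)) * _ = 0
          rw [hlt j hlt1 i, sub_self, zero_mul]
        rw [h3, abs_zero]
        positivity
      · have hnj : n j₀ + 1 ≤ n j := by
          have a2 : n j ≠ n j₀ := fun hc => hjne (hinj hc)
          omega
        have hzj : z j ≤ z j₀ / q := by
          have a3 : z j₀ / q = ((q : ℝ) ^ (n j₀ + 1))⁻¹ := by
            rw [hzd]
            show ((q : ℝ) ^ n j₀)⁻¹ / q = _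
            rw [pow_succ, mul_inv, div_eq_mul_inv]
          rw [a3, hzd]
          exact inv_anti₀ (by positivity) (pow_le_pow_right₀ (by linarith) hnj)
        refine (Finset.abs_sum_le_sum_abs _ _).trans ?_
        have h4 : ∀ i ∈ (univ : Finset ρ), |e i j * ψ i j| ≤ d * (2 * (z j₀ / q)) := by
          intro i _
          rw [abs_mul]
          refine mul_le_mul (hed1 i j) ?_ (abs_nonneg _) (Nat.cast_nonneg _)
          refine (hψ2 i j).trans ?_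
          linarith
        refine (Finset.sum_le_card_nsmul _ _ _ h4).trans (le_of_eq ?_)
        rw [nsmul_eq_mul, Finset.card_univ]
    refine (Finset.sum_le_card_nsmul _ _ _ h1).trans ?_
    rw [nsmul_eq_mul]
    have h8 : ((Finset.univ.erase j₀).card : ℝ) ≤ k := by
      have : (Finset.univ.erase j₀).card ≤ k := by
        refine (Finset.card_erase_le).trans ?_
        rw [Finset.card_univ, Fintype.card_fin]
      exact_mod_cast this
    exact mul_le_mul_of_nonneg_right h8 (by positivity)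
  have hk1 : (1 : ℝ) ≤ k := by
    have : 1 ≤ k := by
      have := j₀.2
      omega
    exact_mod_cast this
  have hmain : (T : ℝ) * z j₀ = ∑ i, e i j₀ * ((a i : ℝ) * z j₀ - ψ i j₀) -
      ∑ j ∈ univ.erase j₀, ∑ i, e i j * ψ i j := by
    have h1 := Finset.add_sum_erase Finset.univ (fun j => ∑ i, e i j * ψ i j) (Finset.mem_univ j₀)
    rw [hrel] at h1
    have h3 : ∑ i, e i j₀ * ((a i : ℝ) * z j₀ - ψ i j₀) = (T : ℝ) * z j₀ - ∑ i, e i j₀ * ψ i j₀ := by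
      rw [hTR, Finset.sum_mul, ← Finset.sum_sub_distrib]
      refine Finset.sum_congr rfl fun i _ => ?_
      ring
    rw [h3]
    have h4 : ∑ i, e i j₀ * ψ i j₀ + ∑ j ∈ univ.erase j₀, ∑ i, e i j * ψ i j = 0 := h1
    linarith
  have habs : z j₀ ≤ |(T : ℝ) * z j₀| := by
    rw [abs_mul, abs_of_pos hz0]
    calc z j₀ = 1 * z j₀ := (one_mul _).symm
      _ ≤ _ := mul_le_mul_of_nonneg_right hT1 hz0.le
  rw [hmain] at habs
  have h5 := habs.trans ((abs_sub _ _).trans (add_le_add hfirst hsecond))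
  have hX : 0 ≤ (Fintype.card ρ : ℝ) * (d * (2 * (z j₀ / q))) := by positivity
  have h6 : z j₀ ≤ 2 * k * ((Fintype.card ρ : ℝ) * (d * (2 * (z j₀ / q)))) := by
    refine h5.trans ?_
    have h7 : (Fintype.card ρ : ℝ) * (d * (2 * (z j₀ / q))) ≤
        k * ((Fintype.card ρ : ℝ) * (d * (2 * (z j₀ / q)))) := le_mul_of_one_le_left hX hk1
    linarith
  have h7 : z j₀ * q ≤ (4 * k * Fintype.card ρ * d) * z j₀ := by
    have h8 : 2 * k * ((Fintype.card ρ : ℝ) * (d * (2 * (z j₀ / q)))) =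
        (4 * k * Fintype.card ρ * d) * z j₀ / q := by ring
    rw [h8, le_div_iff₀ hq0] at h6
    exact h6
  have h8 : ((4 * k * Fintype.card ρ * d : ℕ) : ℝ) < q := by exact_mod_cast hq
  push_cast at h8
  have h9 : (4 * (k : ℝ) * Fintype.card ρ * d) * z j₀ < q * z j₀ := mul_lt_mul_of_pos_right h8 hz0
  linarith

end Pool.Agent.Work.MP_f1a024_nt.TV
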