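import Pool.Agent.Work.MP_f1a024_nt.TV.Stmts
import Pool.Agent.Work.MP_f1a024_nt.TU.TTA

/-!
# Block TV, item VTA: the function `L` at the arguments
-/

namespace Pool.Agent.Work.MP_f1a024_nt.TV

open Finset MvPolynomial Filter
open Pool.Agent.Work.MP_f1a024_nt.AH (PG val D1 D2 D4)
open Pool.Agent.Work.MP_f1a024_nt.TU

theorem VTA_fq_apply (f : ℕ → ℚ) (Q : Finset Nat.Primes) (n : ℕ) :
    fq f Q n = if n = 0 then 0 else if ∀ q ∈ Q, ¬ (q : ℕ) ∣ n then f n else 0 := rfl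

/-- polynomial growth -/
theorem VTA_pg (f : ℕ → ℚ) (hf : CM f) (Q : Finset Nat.Primes) : PG (fq f Q) := by
  refine ⟨1, 0, fun n => ?_⟩
  rw [VTA_fq_apply, Nat.cast_one, pow_zero, mul_one]
  split_ifs with h1 h2
  · rw [Rat.cast_zero, abs_zero]
    exact zero_le_one
  · rcases hf.2.2 n with h | h | h
    · rw [h, Rat.cast_zero, abs_zero]
      exact zero_le_one
    · rw [h, Rat.cast_one, abs_one]
    · rw [h, Rat.cast_neg, Rat.cast_one, abs_neg, abs_one]
  · rw [Rat.cast_zero, abs_zero]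
    exact zero_le_one

/-- the approximating polynomial contains no variable over `Q` -/
theorem VTA_free {κ : ℕ} (f : ℕ → ℚ) (Q : Finset Nat.Primes) (A : Fin κ → ℕ) (c : ℤ) (N : ℕ) :
    Free Q (∑ s ∈ range N, monomial (TTA_b A s) (fq f Q s * (s : ℚ) ^ (-c)) : Rv κ) := by
  classical
  intro v hv hvQ
  have h1 := vars_sum_subset _ _ hv
  rw [mem_biUnion] at h1
  obtain ⟨s, _, hs⟩ := h1
  by_cases h0 : fq f Q s * (s : ℚ) ^ (-c) = 0
  · rw [h0, monomial_zero, vars_0] at hs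
    exact absurd hs (notMem_empty _)
  · rw [vars_monomial h0, Finsupp.mem_support_iff, TTA_b_apply] at hs
    have h2 : fq f Q s ≠ 0 := left_ne_zero_of_mul h0
    have h3 : s.factorization (v.1 : ℕ) ≠ 0 := right_ne_zero_of_mul hs
    have h4 : (v.1 : ℕ) ∣ s := Nat.dvd_of_factorization_pos h3
    rw [VTA_fq_apply] at h2
    split_ifs at h2 with h5 h6
    · exact h2 rfl
    · exact h6 v.1 hvQ h4
    · exact h2 rfl

theorem prfVTA (hC1 : C1) (hD4 : D4) : VTA := by
  intro κ X k n hArg f hf Q j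
  obtain ⟨⟨A, c, hRep⟩, hinj⟩ := hArg
  have hPG := VTA_pg f hf Q
  have hev : ∀ (w : Fin κ → ℕ) (b : Ev κ) (c : ℚ), evw w (monomial b c) = c * mo w b :=
    (hC1 κ).2.2.2.2.1
  have hbig : ∀ C : ℝ, ∀ᶠ l : ℕ in (X.𝒰 : Filter ℕ), C ≤ 2 ^ X.m l := by
    intro C
    obtain ⟨N₀, hN₀⟩ := pow_unbounded_of_one_lt C (one_lt_two)
    filter_upwards [X.hm N₀] with l hl
    exact hN₀.le.trans (pow_le_pow_right₀ one_le_two hl)
  constructor
  · intro θ hθ
    obtain ⟨N₁, hN₁⟩ := exists_nat_gt (2 / θ)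
    set N := N₁ + 2 with hN
    have hNpos : (0 : ℝ) < (N : ℝ) := by
      rw [hN]
      positivity
    have hNθ : 1 / (N : ℝ) ≤ θ / 2 := by
      have h1 : 2 / θ ≤ (N : ℝ) := by
        rw [hN]
        push_cast
        linarith
      rw [div_le_iff₀ hθ] at h1
      rw [div_le_iff₀ hNpos]
      linarith
    obtain ⟨C, M, hC, hM⟩ := hD4 (fq f Q) hPG N (by omega)
    refine ⟨∑ s ∈ range N, monomial (TTA_b (A j) s) (fq f Q s * (s : ℚ) ^ (-(c j))),
      VTA_free f Q (A j) (c j) N, ?_⟩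
    filter_upwards [hRep, hinj, X.hm M, hbig C] with l h1 h2 h3 h4
    have h5 : ((evw (X.w l) (∑ s ∈ range N, monomial (TTA_b (A j) s)
        (fq f Q s * (s : ℚ) ^ (-(c j)))) : ℚ) : ℝ) =
        ∑ s ∈ range N, ((fq f Q s : ℚ) : ℝ) / (s : ℝ) ^ n l j := by
      rw [map_sum]
      push_cast
      refine sum_congr rfl fun s _ => ?_
      rw [hev]
      rcases Nat.eq_zero_or_pos s with hs | hs
      · subst hs
        rw [ArithmeticFunction.map_zero]
        simp
      · rw [TTA_term (A j) (X.w l) (c j) (h1 j) hs]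
        push_cast
        rfl
    rw [h5]
    have h6 : X.m l ≤ n l j := h2.2 j
    refine (hM (n l j) (h3.trans h6)).trans ?_
    have h7 : (1 / (N : ℝ)) ^ n l j ≤ (1 / (N : ℝ)) ^ X.m l := by
      refine pow_le_pow_of_le_one (by positivity) ?_ h6
      rw [div_le_one hNpos, hN]
      push_cast
      have : (0 : ℝ) ≤ (N₁ : ℝ) := Nat.cast_nonneg _
      linarith
    have h8 : (1 / (N : ℝ)) ^ X.m l ≤ (θ / 2) ^ X.m l :=
      pow_le_pow_left₀ (by positivity) hNθ _
    calc C * (1 / (N : ℝ)) ^ n l j ≤ 2 ^ X.m l * (θ / 2) ^ X.m l :=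
          mul_le_mul h4 (h7.trans h8) (by positivity) (by positivity)
      _ = θ ^ X.m l := by
          rw [← mul_pow]
          congr 1
          ring
  · obtain ⟨C, M, hC, hM⟩ := hD4 (fq f Q) hPG 2 (by norm_num)
    filter_upwards [hinj, X.hm M, hbig (2 * C)] with l h2 h3 h4
    have h6 : X.m l ≤ n l j := h2.2 j
    have h7 := hM (n l j) (h3.trans h6)
    have h8 : ∑ s ∈ range 2, ((fq f Q s : ℚ) : ℝ) / (s : ℝ) ^ n l j = 1 := by
      rw [sum_range_succ, sum_range_succ, sum_range_zero, ArithmeticFunction.map_zero]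
      have h9 : fq f Q 1 = 1 := by
        rw [VTA_fq_apply, if_neg one_ne_zero, if_pos, hf.1]
        intro q _ hq
        have h10 : (q : ℕ) = 1 := Nat.dvd_one.1 hq
        exact q.2.one_lt.ne' h10
      rw [h9]
      simp
    rw [h8] at h7
    have h9 : C * (1 / ((2 : ℕ) : ℝ)) ^ n l j ≤ 1 / 2 := by
      have h10 : (1 / ((2 : ℕ) : ℝ)) ^ n l j ≤ (1 / 2 : ℝ) ^ X.m l := by
        push_cast
        exact pow_le_pow_of_le_one (by norm_num) (by norm_num) h6
      have h11 : C * (1 / 2 : ℝ) ^ X.m l ≤ 1 / 2 := by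
        have h12 : (1 / 2 : ℝ) ^ X.m l * 2 ^ X.m l = 1 := by
          rw [← mul_pow]
          norm_num
        have h13 : (0 : ℝ) < (1 / 2 : ℝ) ^ X.m l := by positivity
        nlinarith [mul_le_mul_of_nonneg_left h4 h13.le]
      exact (mul_le_mul_of_nonneg_left h10 hC).trans h11
    have h10 := abs_le.1 (h7.trans h9)
    linarith [h10.1]

end Pool.Agent.Work.MP_f1a024_nt.TV
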