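import Pool.Agent.Work.MP_f1a024_nt.AH.Final
import Pool.Agent.Work.MP_f1a024_nt.RW.TRI
import Pool.Agent.Work.MP_f1a024_nt.RW.PLC
import Pool.Agent.Work.MP_f1a024_nt.RW.STQ
import Pool.Agent.Work.MP_f1a024_nt.RW.SubST
import Pool.Agent.Work.MP_f1a024_nt.TU.NA
import Pool.Agent.Work.MP_f1a024_nt.TU.C1
import Pool.Agent.Work.MP_f1a024_nt.TU.C2
import Pool.Agent.Work.MP_f1a024_nt.TU.UQ0
import Pool.Agent.Work.MP_f1a024_nt.TU.SU
import Pool.Agent.Work.MP_f1a024_nt.TU.B0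
import Pool.Agent.Work.MP_f1a024_nt.TU.SHV
import Pool.Agent.Work.MP_f1a024_nt.TU.LAT
import Pool.Agent.Work.MP_f1a024_nt.TU.PRV
import Pool.Agent.Work.MP_f1a024_nt.TU.CNTV
import Pool.Agent.Work.MP_f1a024_nt.TU.LAS
import Pool.Agent.Work.MP_f1a024_nt.TU.LA
import Pool.Agent.Work.MP_f1a024_nt.TU.AX
import Pool.Agent.Work.MP_f1a024_nt.TU.LB1
import Pool.Agent.Work.MP_f1a024_nt.TU.QI
import Pool.Agent.Work.MP_f1a024_nt.TU.US1
import Pool.Agent.Work.MP_f1a024_nt.TU.US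
import Pool.Agent.Work.MP_f1a024_nt.TV.VEU
import Pool.Agent.Work.MP_f1a024_nt.TV.VTA
import Pool.Agent.Work.MP_f1a024_nt.TV.VHQ
import Pool.Agent.Work.MP_f1a024_nt.TV.VLBa
import Pool.Agent.Work.MP_f1a024_nt.TV.VSEP
import Pool.Agent.Work.MP_f1a024_nt.TV.VLB
import Pool.Agent.Work.MP_f1a024_nt.TV.VMA
import Pool.Agent.Work.MP_f1a024_nt.TV.VCH
import Pool.Agent.Work.MP_f1a024_nt.TV.VIP
import Pool.Agent.Work.MP_f1a024_nt.TV.VFI

/-!
# Blocks TU and TV: assembly of THEOREM V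
-/

namespace Pool.Agent.Work.MP_f1a024_nt.TV

open Pool.Agent.Work.MP_f1a024_nt.AH (d4)
open Pool.Agent.Work.MP_f1a024_nt.TU
open Pool.Agent.Work.Tools.Subspace (subspaceN1 sunitU3 prfU0)

theorem na : NA := prfNA
theorem c1 : C1 := prfC1
theorem c2 : C2 := prfC2 c1
theorem uq0 : UQ0 := prfUQ0 Pool.Agent.Work.MP_f1a024_nt.RW.prfPLC prfU0 sunitU3
theorem su : SU := prfSU c1 c2 uq0
theorem stq : Pool.Agent.Work.MP_f1a024_nt.RW.STQ :=
  Pool.Agent.Work.MP_f1a024_nt.RW.prfSTQ subspaceN1 Pool.Agent.Work.MP_f1a024_nt.RW.prfPLC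
theorem b0 : B0 := prfB0 na c1 su stq
theorem shv' : SHV := prfSHV c1
theorem lat : LAT := prfLAT c1 Pool.Agent.Work.MP_f1a024_nt.RW.prfTRI
theorem prv : PRV := prfPRV c1 shv'
theorem las : LAS := prfLAS c1 lat prv (Pool.Agent.Work.MP_f1a024_nt.RW.prfSubST stq)
theorem la : LA := prfLA na c1 c2 prfCNTV las
theorem ax : AX := prfAX c1
theorem lb1 : LB1 := prfLB1 na c1 su ax la
theorem qi : QI := prfQI na c1 b0
theorem us : US := prfUS prfUS1
theorem vta : VTA := prfVTA c1 d4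
theorem vlba : VLBa := prfVLBa na ax prfVEU vta qi
theorem vlb : VLB := prfVLB na c1 b0 vta prfVHQ vlba prfVSEP
theorem vma : VMA := prfVMA na ax vta us lb1 vlb
theorem vfi : VFI := prfVFI vma prfVCH prfVIP

end Pool.Agent.Work.MP_f1a024_nt.TV
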