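import Pool.Agent.Work.MP_f1a024_nt.TU.Stmts

/-!
# Block TV: the general theorem (THEOREM V)

Let `f_i` be completely multiplicative functions with values `0, 1, -1` (real Dirichlet characters),
linearly independent on the large primes. For all `k, d, C, B` there are `θ < 1` and `M` such that
for `m ≥ M`, for all different `n_1, ..., n_k` in `[m, C m]` and all nonzero integer polynomials `P` in
the variables `X_(i, j)`, of degree at most `d` in each variable with coefficients bounded by `B ^ m`: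
`|P(L(n_j, f_i))| ≥ θ ^ m`, where `L(n, f) = ∑ f(s) s^(-n)`.

The items are ports of the items of block TU with the same names (files `TU/EU.lean`, `TU/TTA.lean`,
`TU/HQ.lean`, `TU/LBa.lean`, `TU/SEP.lean`, `TU/LB.lean`, `TU/MA.lean`); the index `j` of the argument is
replaced by the pair `(i, j)`. Notation in the proofs as in `TU/Stmts.lean`.
-/

namespace Pool.Agent.Work.MP_f1a024_nt.TV

open Finset MvPolynomial Filter
open Pool.Agent.Work.MP_f1a024_nt.AH (PG val D1 D2 D4)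
open Pool.Agent.Work.MP_f1a024_nt.TU

/-- completely multiplicative functions with values `0`, `1`, `-1` -/
def CM (f : ℕ → ℚ) : Prop :=
  f 1 = 1 ∧ (∀ a b, f (a * b) = f a * f b) ∧ ∀ a, f a = 0 ∨ f a = 1 ∨ f a = -1

/-- `f` restricted to the positive integers prime to all `q ∈ Q` -/
def fq (f : ℕ → ℚ) (Q : Finset Nat.Primes) : ArithmeticFunction ℚ :=
  ⟨fun n => if n = 0 then 0 else if ∀ q ∈ Q, ¬ (q : ℕ) ∣ n then f n else 0, by simp⟩

/-- `∏_(i,j) L_Q(n_j, f_i) ^ I_(i,j)` -/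
noncomputable def tJ {ρ : Type} [Fintype ρ] {k d : ℕ} (f : ρ → ℕ → ℚ) (Q : Finset Nat.Primes)
    (n : Fin k → ℕ) (I : ρ × Fin k → Fin (d + 1)) : ℝ :=
  ∏ v, val (fq (f v.1) Q) (n v.2) ^ (I v : ℕ)

/-- `∑_I g_I L_Q ^ I` is negligible -/
def RF {κ : ℕ} (X : Cx κ) {ρ : Type} [Fintype ρ] [DecidableEq ρ] {k d : ℕ} (f : ρ → ℕ → ℚ)
    (n : ℕ → Fin k → ℕ) (Q : Finset Nat.Primes) (g : (ρ × Fin k → Fin (d + 1)) → Rv κ) : Prop :=
  Neg X fun l => ∑ I, ((evw (X.w l) (g I) : ℚ) : ℝ) * tJ f Q (n l) I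

/-- the Euler factors at `q`, cleared: `∏_(i,j) (1 - a_i q^(-n_j))^(d - I_(i,j))`, `a_i = f_i(q)` -/
noncomputable def ef {ρ : Type} [Fintype ρ] {k d : ℕ} (q : ℕ) (a : ρ → ℚ) (n : Fin k → ℕ)
    (I : ρ × Fin k → Fin (d + 1)) : ℝ :=
  ∏ v, (1 - (a v.1 : ℝ) * ((q : ℝ) ^ n v.2)⁻¹) ^ (d - (I v : ℕ))

/-- independence on the large primes -/
def IP {ρ : Type} [Fintype ρ] (f : ρ → ℕ → ℚ) : Prop :=
  ∀ e : ρ → ℤ, e ≠ 0 → ∀ N : ℕ, ∃ q : ℕ, q.Prime ∧ N < q ∧ ∑ i, (e i : ℚ) * f i q ≠ 0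

/-- VEU (EASY-MEDIUM): the Euler factor at `q`. The series `∑_s fq f Q s / s^n` converges
absolutely for `n ≥ 2` (`|f| ≤ 1`). Split it into the `s` not divisible by `q`, which give
`val (fq f (insert q Q)) n`, and the `s = q s'`, for which `fq f Q (q s') = f q * fq f Q s'`
(complete multiplicativity; a prime `r ∈ Q`, `r ≠ q`, divides `q s'` iff it divides `s'`), which give
`f q * q^(-n) * val (fq f Q) n` (`tsum` over the range of the injective map `s' ↦ q s'`, with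
`Function.Injective.tsum_eq` for functions supported on the range). -/
def VEU : Prop :=
  ∀ (f : ℕ → ℚ), CM f → ∀ (Q : Finset Nat.Primes) (q : Nat.Primes), q ∉ Q → ∀ n ≥ 2,
    (1 - ((f q : ℚ) : ℝ) * (((q : ℕ) : ℝ) ^ n)⁻¹) * val (fq f Q) n = val (fq f (insert q Q)) n

/-- VTA (MEDIUM, port of TTA): `L` at the arguments. `fq f Q` has polynomial growth
(`|fq f Q s| ≤ 1`), `fq f Q 0 = 0`, `fq f Q 1 = 1`. First claim: given `θ > 0` take `N ≥ 2` with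
`1/N ≤ θ/2` and D4: `|val (fq f Q) n - ∑_{s < N} fq f Q s / s^n| ≤ C (1/N)^n` for `n ≥ M`. For
`n = n l j ≥ m ≥ M` a.a. this is at most `C (1/N)^m ≤ C (θ/2)^m ≤ θ^m` a.a. For `1 ≤ s < N` and
`n = ∑_i A_i w_i + c`: `s^(-n) = s^(-c) ∏_p ∏_i (p^(-w_i))^(A_i v_p(s))`, that is
`fq f Q s / s^n = evw w (monomial b_s (fq f Q s * s^(-c)))` with `b_s (p, i) = A_i v_p(s)`. If
`fq f Q s ≠ 0` then no `q ∈ Q` divides `s`, so this polynomial is `Free Q`. Sum over `s`. Second claim: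
D4 with `N = 2`: `|val (fq f Q) n - 1| ≤ C 2^(-n) ≤ 1/2` for large `n`. -/
def VTA : Prop :=
  ∀ (κ : ℕ) (X : Cx κ) (k : ℕ) (n : ℕ → Fin k → ℕ), Arg X n → ∀ f : ℕ → ℚ, CM f →
    ∀ (Q : Finset Nat.Primes) (j : Fin k),
      (Apx X Q fun l => val (fq f Q) (n l j)) ∧
        ∀ᶠ l : ℕ in (X.𝒰 : Filter ℕ), 1 / 2 ≤ val (fq f Q) (n l j)

/-- VHQ (EASY-MEDIUM, port of HQ): the cleared Euler factors are polynomials in the `z_(q, i)`. With
`n_j = ∑_i A_ji w_i + c_j` let `ζ_j = monomial (∑_i single i A_ji) (q^(-c_j))`, with the value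
`q^(-n_j)` a.a., `constantCoeff ζ_j = 0` (as in HQ), and
`h = ∏_(i,j) (1 - C (a_i) * ζ_j)^(d - I_(i,j))`. -/
def VHQ : Prop :=
  ∀ (κ : ℕ) (X : Cx κ) (ρ : Type) [Fintype ρ] [DecidableEq ρ] (k d : ℕ) (n : ℕ → Fin k → ℕ),
    Arg X n → ∀ (q : Nat.Primes) (a : ρ → ℚ) (I : ρ × Fin k → Fin (d + 1)),
      ∃ h : MvPolynomial (Fin κ) ℚ, h.coeff 0 = 1 ∧
        ∀ᶠ l : ℕ in (X.𝒰 : Filter ℕ),
          ((MvPolynomial.aeval (fun i => vz (X.w l) (q, i)) h : ℚ) : ℝ) = ef q a (n l) I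

/-- VLBa (MEDIUM, port of LBa): separation of an Euler factor. Write `Q' = insert q Q`,
`T^I = tJ f Q n I`, `T'^I = tJ f Q' n I`, `z_j = q^(-n_j)`, `a_i = f_i q`. Multiply the relation by
`∏_(i,j) (1 - a_i z_j)^d`, of absolute value at most `2^(#ρ k d)`; it remains negligible (NA). By
VEU (for all `n_j ≥ m ≥ 2`, a.a.)
`T^I ∏ (1 - a_i z_j)^d = ∏ ((1 - a_i z_j) val (fq f_i Q) n_j)^(I_ij) (1 - a_i z_j)^(d - I_ij) = ef q a n I * T'^I`.
So `∑_I evw (g_I) (h_I(z)) T'^I` is negligible, where `h_I(z) = ∑_μ coeff_μ(h_I) z^μ`, so with `Λ` the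
union of the supports of the `h_I` and `a μ = ∑_I evw (C (coeff_μ h_I) * g_I) T'^I`,
`∑_{μ ∈ Λ} a μ z^μ` is negligible. The `a μ` are in `Apx X {q}`: `T'^I` is in `Apx X Q'` (VTA, AX),
`{q} ⊆ Q'`, `g_I` is free of `q`. QI gives the claim for `μ ∈ Λ`; for `μ ∉ Λ` all coefficients are
`0`. -/
def VLBa : Prop :=
  ∀ (κ : ℕ) (X : Cx κ) (ρ : Type) [Fintype ρ] [DecidableEq ρ] (k d : ℕ) (n : ℕ → Fin k → ℕ)
    (f : ρ → ℕ → ℚ), Arg X n → (∀ i, CM (f i)) → ∀ (Q : Finset Nat.Primes)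
    (q : Nat.Primes) (g : (ρ × Fin k → Fin (d + 1)) → Rv κ)
    (h : (ρ × Fin k → Fin (d + 1)) → MvPolynomial (Fin κ) ℚ), RF X f n Q g → q ∉ Q →
    (∀ I, Free {q} (g I)) →
    (∀ I, ∀ᶠ l : ℕ in (X.𝒰 : Filter ℕ),
      ((MvPolynomial.aeval (fun i => vz (X.w l) (q, i)) (h I) : ℚ) : ℝ) =
        ef q (fun i => f i q) (n l) I) →
    ∀ μ : Fin κ →₀ ℕ, RF X f n (insert q Q) fun I => C ((h I).coeff μ) * g I

/-- VSEP (MEDIUM, model SEP): the cleared Euler factors at a large prime. Put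
`z_j = q^(-n_j) ∈ (0, 1/2]`, `e_ij = I_ij - J_ij`. For `a ∈ {0, 1, -1}`, `0 < z ≤ 1/2`:
`|-log (1 - a z) - a z| ≤ z^2` (for `a = 1`: `z ≤ -log(1-z) ≤ z/(1-z) = z + z^2/(1-z)`, which is too weak by a
factor `2`; use `|log (1 - x) + x| ≤ x^2 / (1 - |x|)` (`Real.abs_log_sub_add_sum_range_le` with
`n = 1`), so `≤ 2 z^2`), and `|log (1 - a z)| ≤ 2 z`. All factors are positive; logarithms of the
hypothesis give `∑_ij e_ij (-log (1 - a_i z_j)) = 0`. Let `S = ∑_i e_{i j₀} a_i`, an integer; suppose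
`S ≠ 0`, so `|S| ≥ 1`. The terms with `n_j < n_{j₀}` vanish, `n_j = n_{j₀}` only for `j = j₀`, and for the
other `j` `z_j ≤ z_{j₀} / q`. So
`z_{j₀} ≤ |S| z_{j₀} ≤ 2 r d z_{j₀}^2 + ∑_{j, i} d * 2 z_{j₀}/q ≤ (2 r d + 2 k r d) z_{j₀}/q ≤ 4 k r d z_{j₀}/q`,
`r = #ρ` (`z_{j₀} ≤ 1/q`, `k ≥ 1`), so `q ≤ 4 k r d`, a contradiction. -/
def VSEP : Prop :=
  ∀ (ρ : Type) [Fintype ρ] [DecidableEq ρ] (k d q : ℕ) (n : Fin k → ℕ) (a : ρ → ℚ)
    (I J : ρ × Fin k → Fin (d + 1)) (j₀ : Fin k), 4 * k * Fintype.card ρ * d < q → 2 ≤ q →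
    Function.Injective n → (∀ j, 1 ≤ n j) → (∀ i, a i = 0 ∨ a i = 1 ∨ a i = -1) →
    (∀ j, n j < n j₀ → ∀ i, I (i, j) = J (i, j)) → ef q a n I = ef q a n J →
    ∑ i, (((I (i, j₀) : ℕ) : ℚ) - ((J (i, j₀) : ℕ) : ℚ)) * a i = 0

/-- VLB (MEDIUM, port of LB): independence of the products of powers. We prove for all `Q` and `g`:
`RF X f n Q g` implies `g = 0`, by strong induction on `s = #{I | g I ≠ 0}`. Let `s ≥ 1`. If `s = 1`,
`g I₀ ≠ 0`: `evw w (g I₀) tJ f Q n I₀` is negligible, and `tJ f Q n I₀ ≥ 2^(-#ρ k d)` a.a. (VTA), so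
`evw w (g I₀)` is negligible; but by B0 (`ε = 1`) and C1 (8) `|evw w (g I₀)| ≥ exp(-m) c^m`, a
contradiction (NA (11)). If `s ≥ 2` let `I₀ ≠ I₁` with `g I₀, g I₁ ≠ 0`. For a.a. `l` let `j₀` be the
`j` with the smallest `n_j` among those with `I₀ (i, j) ≠ I₁ (i, j)` for some `i`; by the ultrafilter
`j₀` is the same for a.a. `l`. Put `e_i = I₀ (i, j₀) - I₁ (i, j₀)`, `e ≠ 0`. By `IP` there is a
prime `q > 4 k #ρ d`, `q ∉ Q`, with all `g I` free of `q` (take `q` larger than all these primes) and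
`∑ e_i f_i(q) ≠ 0`. Take the `h_I` of VHQ for `a_i = f_i q`. By VSEP (at one `l` with all the properties;
`n_j ≥ m ≥ 1`) `ef q a n I₀ ≠ ef q a n I₁`, so `h_{I₀} ≠ h_{I₁}`, so there is `μ` with
`coeff_μ h_{I₀} ≠ coeff_μ h_{I₁}`. VLBa for this `μ` and for `μ = 0` gives two relations for
`Q' = insert q Q`; the first minus `coeff_μ h_{I₀}` times the second is `RF X f n Q' g'` with
`g' I = C (coeff_μ h_I - coeff_μ h_{I₀}) * g I` (NA). `g' I₀ = 0`, `g' I₁ ≠ 0`, and `g' I ≠ 0` implies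
`g I ≠ 0`: the number for `g'` is smaller, so `g' = 0`, a contradiction. Finally `Q = ∅`. -/
def VLB : Prop :=
  ∀ (κ : ℕ) (X : Cx κ) (ρ : Type) [Fintype ρ] [DecidableEq ρ] (k d : ℕ) (n : ℕ → Fin k → ℕ)
    (f : ρ → ℕ → ℚ), Arg X n → (∀ i, CM (f i)) → IP f →
    ∀ g : (ρ × Fin k → Fin (d + 1)) → Rv κ, RF X f n ∅ g → g = 0

/-- VMA (MEDIUM, port of MA): THEOREM V. If `k = 0`, the ring of polynomials has no variables: `P` is a
nonzero integer constant and `θ = 1/2`, `M = 0` will do. Let `k > 0` and suppose it is false. For every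
`l` the pair `θ = 1/(l+2)`, `M = l` fails: we get `m_l ≥ l`, `n_l : Fin k → ℕ` injective with
`m_l ≤ n_l ≤ C m_l`, and `P_l ≠ 0`. As in MA: `𝒰` nonprincipal, US gives `κ > 0`, `X`, with `Arg X n`; for
`I : ρ × Fin k → Fin (d+1)` put `f_I = tJ f ∅ n I` and `x_I = coeff of P_l at the exponent v ↦ I_v`.
`f_I` is in `Apx X ∅` (VTA, AX (8), (9)), `x l ≠ 0`, `|x_I| ≤ (max |B| 1)^m`, `∑_I x_I f_I = P_l(L)`,
which is negligible, against LB1 with VLB. -/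
def VMA : Prop :=
  ∀ (ρ : Type) [Fintype ρ] [DecidableEq ρ] (f : ρ → ℕ → ℚ), (∀ i, CM (f i)) → IP f →
    ∀ (k d C : ℕ) (B : ℝ), ∃ θ : ℝ, 0 < θ ∧ θ < 1 ∧ ∃ M : ℕ, ∀ m ≥ M, ∀ n : Fin k → ℕ,
      Function.Injective n → (∀ j, m ≤ n j ∧ n j ≤ C * m) →
      ∀ P : MvPolynomial (ρ × Fin k) ℤ, P ≠ 0 → (∀ v, P.degreeOf v ≤ d) →
      (∀ s, |((P.coeff s : ℤ) : ℝ)| ≤ B ^ m) →
      θ ^ m ≤ |MvPolynomial.aeval (fun v : ρ × Fin k => val (fq (f v.1) ∅) (n v.2)) P|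

/-! ## Dirichlet characters -/

/-- the rational value of a real Dirichlet character: the real part is `0`, `1` or `-1` -/
noncomputable def chq {D : ℕ} (χ : DirichletCharacter ℂ D) (s : ℕ) : ℚ :=
  if χ (s : ZMod D) = 0 then 0 else if χ (s : ZMod D) = 1 then 1 else -1

/-- the characters of the index set: `none` is the trivial character modulo `1` -/
noncomputable def chf {r : ℕ} (D : Fin r → ℕ) (χ : ∀ i, DirichletCharacter ℂ (D i)) :
    Option (Fin r) → ℕ → ℚ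
  | none => fun _ => 1
  | some i => chq (χ i)

/-- the `L`-values: `none` is the zeta function -/
noncomputable def Lv {r : ℕ} (D : Fin r → ℕ) [∀ i, NeZero (D i)]
    (χ : ∀ i, DirichletCharacter ℂ (D i)) : Option (Fin r) → ℕ → ℂ
  | none => fun n => riemannZeta n
  | some i => fun n => (χ i).LFunction n

/-- VCH (EASY-MEDIUM): real characters. Let `χ^2 = 1`. Then `χ(s)^2 = 1` if `s` is prime to `D` and
`χ(s) = 0` otherwise (`MulChar`: `χ(s)` is nonzero iff `s` is a unit; `pow_apply`), so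
`(chq χ s : ℂ) = χ s`, and `chq χ` is completely multiplicative (`Nat.cast_mul`, `map_mul`), with
values `0, 1, -1`. For `n ≥ 2`: `LFunction χ n = LSeries = ∑ χ(s) s^(-n)`
(`DirichletCharacter.LFunction_eq_LSeries`, `1 < re n`), and `LSeries` is the `tsum` of the terms
`χ(s) / s^n` (`LSeries.term`, the term at `0` is `0`; `Complex.cpow_natCast`), so it is the complex
number of the real `val (fq (chq χ) ∅) n` (`Complex.ofReal_tsum`). In the same way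
`riemannZeta n = ∑ 1/s^n` (`zeta_nat_eq_tsum_of_gt_one`, the term `s = 0` is `0`) is
`val (fq (fun _ => 1) ∅) n`. -/
def VCH : Prop :=
  (∀ (D : ℕ) [NeZero D] (χ : DirichletCharacter ℂ D), χ ^ 2 = 1 →
    CM (chq χ) ∧ (∀ s : ℕ, ((chq χ s : ℚ) : ℂ) = χ (s : ZMod D)) ∧
      ∀ n ≥ 2, ((val (fq (chq χ) ∅) n : ℝ) : ℂ) = χ.LFunction (n : ℂ)) ∧
  CM (fun _ => 1) ∧ ∀ n ≥ 2, ((val (fq (fun _ => 1) ∅) n : ℝ) : ℂ) = riemannZeta (n : ℂ)

/-- VIP (MEDIUM): independence of characters on the large primes. Let `D₀ = ∏ D i`. Suppose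
`∑ e_i f_i(q) = 0` for all primes `q > N`, for the `f = chf D χ` (indexed by `Option (Fin r)`; `none` is
the constant function `1`). For every unit `a` of `ZMod D₀` there is a prime `q > N` with
`q = a` in `ZMod D₀` (Dirichlet: `Nat.forall_exists_prime_gt_and_eq_mod`), and `χ_i(q) = χ_i(a mod D i)`
depends only on `a` (`D i ∣ D₀`; `ZMod.castHom`, `ZMod.unitsMap`). So `∑ e_i ψ_i(a) = 0` for all units
`a`, where `ψ_i : (ZMod D₀)ˣ →* ℂ` is `χ_i` composed with the reduction, `ψ_none = 1`. The `ψ_i` are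
different: for `i ≠ i'` in `Fin r` let `m` be prime to `D i * D i'` with `χ_i m ≠ χ_i' m`; there is a
prime `q > D₀` with `q = m` in `ZMod (D i * D i')` (Dirichlet), and `q` is prime to `D₀`, so it gives a
unit `a` with `ψ_i a ≠ ψ_i' a`. For `i` and `none` the same with `m` prime to `D i` and `χ_i m ≠ 1`, which
exists because `χ_i ≠ 1`. By the independence of characters (`linearIndependent_monoidHom`) all
`e_i = 0`. -/
def VIP : Prop :=
  ∀ (r : ℕ) (D : Fin r → ℕ) [∀ i, NeZero (D i)] (χ : ∀ i, DirichletCharacter ℂ (D i)),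
    (∀ i, χ i ^ 2 = 1) → (∀ i, χ i ≠ 1) →
    (∀ i j, i ≠ j → ∃ m : ℕ, m.Coprime (D i * D j) ∧ χ i (m : ZMod (D i)) ≠ χ j (m : ZMod (D j))) →
    IP (chf D χ)

/-- VFI (MEDIUM): the final theorem. Apply VMA to `chf D χ` (VCH, VIP), with `d + 2` for `d`,
`2 * max |B| 1` for `B`. Let `θ₀, M₀` be the constants, `θ = θ₀ / 4`, `M = max M₀ 2`. First part: for
`m ≥ M` all `n_j ≥ 2`, so `P(Lv)` is the complex number of the real `P(val)` (VCH; `aeval` commutes with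
the ring homomorphism `ℝ → ℂ`, `MvPolynomial.map_aeval` or `eval₂_comp`), and
`θ^m ≤ θ₀^m`. Second part: `n b = 2 * n a`. Put `P = A * X (none, a)^2 - A' * X (none, b) ≠ 0`: degree at most
`d + 2` in each variable (`degreeOf_mul_le`, `degreeOf_add_le`, `degreeOf_sub_le`), coefficients at most
`2 B^m ≤ (2 max |B| 1)^m` (`coeff_mul_X'`, or: the coefficient of `A * X^2` at `s` is `0` or a coefficient of
`A`; `m ≥ 1`). `P(Lv) = A(Lv) ζ(n_a)^2 - A'(Lv) ζ(2 n_a) = ζ(n_a)^2 (A(Lv) - A'(Lv) t(n_a))` (`ζ(n_a) ≠ 0`), and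
`|ζ(n_a)| ≤ 2` for `n_a ≥ 2` (`ζ(2) < 2`; or from the series: `∑_{s ≥ 1} 1/s^n ≤ ∑ 1/s^2 = π^2/6 ≤ 2`). So
`θ₀^m ≤ 4 |A(Lv) - A'(Lv) t(n_a)|`, and `θ^m ≤ θ₀^m / 4` (`m ≥ 1`). -/
def VFI : Prop :=
  ∀ (k r d C : ℕ) (B : ℝ) (D : Fin r → ℕ) [∀ i, NeZero (D i)]
    (χ : ∀ i, DirichletCharacter ℂ (D i)), (∀ i, χ i ^ 2 = 1) → (∀ i, χ i ≠ 1) →
    (∀ i j, i ≠ j → ∃ m : ℕ, m.Coprime (D i * D j) ∧ χ i (m : ZMod (D i)) ≠ χ j (m : ZMod (D j))) →
    ∃ θ : ℝ, 0 < θ ∧ θ < 1 ∧ ∃ M : ℕ, ∀ m ≥ M, ∀ n : Fin k → ℕ, Function.Injective n →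
      (∀ j, m ≤ n j ∧ n j ≤ C * m) →
      (∀ P : MvPolynomial (Option (Fin r) × Fin k) ℤ, P ≠ 0 → (∀ v, P.degreeOf v ≤ d) →
        (∀ s, |((P.coeff s : ℤ) : ℝ)| ≤ B ^ m) →
        θ ^ m ≤ ‖MvPolynomial.aeval (fun v : Option (Fin r) × Fin k => Lv D χ v.1 (n v.2)) P‖) ∧
      ∀ (a b : Fin k) (A A' : MvPolynomial (Option (Fin r) × Fin k) ℤ), n b = 2 * n a →
        (∀ v, A.degreeOf v ≤ d) → (∀ v, A'.degreeOf v ≤ d) →
        (∀ s, |((A.coeff s : ℤ) : ℝ)| ≤ B ^ m) → (∀ s, |((A'.coeff s : ℤ) : ℝ)| ≤ B ^ m) →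
        A * X (none, a) ^ 2 ≠ A' * X (none, b) →
        θ ^ m ≤ ‖MvPolynomial.aeval (fun v : Option (Fin r) × Fin k => Lv D χ v.1 (n v.2)) A -
          MvPolynomial.aeval (fun v : Option (Fin r) × Fin k => Lv D χ v.1 (n v.2)) A' *
            (riemannZeta (2 * (n a : ℂ)) / riemannZeta (n a : ℂ) ^ 2)‖

end Pool.Agent.Work.MP_f1a024_nt.TV
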